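import Pool.Agent.W902.Q.Stage

/-!
# Nondeterministic one-pass programs against quantum machines
-/

set_option autoImplicit false
set_option linter.unusedSectionVars false

open Finset Filter
open scoped BigOperators ComplexConjugate

namespace Pool.Agent.W902.Q

open Pool.Agent.W977.CQ

/-- The machine tells the inputs accepted by exactly one of the programs from the inputs accepted
by none of them: the former are accepted with probability at least `α` and the latter with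
probability at most `α - δ`. -/
def Tells {n m w D T : ℕ} {A : Type} (Q : Machine n A D T) (P : Fin m → OnePass n A w)
    (α δ : ℝ) : Prop :=
  (∀ x, (∃! j, (P j).Accepts x) → α ≤ Q.prob Q.yes x) ∧
    ∀ x, (∀ j, ¬ (P j).Accepts x) → Q.prob Q.yes x ≤ α - δ

lemma exp_aux (E Y s : ℕ) (h : E ≤ Y * (s + 1)) : 2 * (E + 1) ≤ 2 * (Y + 1) * (s + 1) := by
  have h7 : E + 1 ≤ Y * (s + 1) + (s + 1) := Nat.add_le_add h (Nat.le_add_left 1 s)
  have h8 : 2 * (Y + 1) * (s + 1) = 2 * (Y * (s + 1) + (s + 1)) := by ring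
  rw [h8]
  exact Nat.mul_le_mul_left 2 h7

/-- Fixed constants. -/
theorem fixedQ (k : ℕ) (δ : ℝ) (hδ0 : 0 < δ) (hδ1 : δ ≤ 1) : ∃ m₀ c₀ : ℕ, ∀ m ≥ m₀,
    ∀ s p : ℕ, p.Prime → 2 ^ (c₀ * (s + 1)) ≤ p → ∃ N, ∀ n ≥ N,
      ∃ P : Fin m → OnePass n (ZMod p) (p * p), ∀ (D T : ℕ) (Q : Machine n (ZMod p) D T),
        Q.Valid → T ≤ k * n → D ≤ 2 ^ (s * n) → ∀ α : ℝ, ¬ Tells Q P α δ := by
  classical
  obtain ⟨L, hL⟩ := Pool.Agent.W32.Q.main_hit (5 * k + 4 + 1) (by omega)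
  obtain ⟨C, hC⟩ := Pool.Agent.W462.QDERIV.deriv L
  obtain ⟨m₁, hm₁⟩ := exists_nat_gt (6 * C / δ)
  set r : ℕ := 5 * k + 4 + 1 with hr
  refine ⟨m₁ + 1, 2 * (32 * r * ((2 * r + 1) * 2 ^ r + r + 1) + 1), fun m hm s p hp hps => ?_⟩
  obtain ⟨N, hN⟩ := hL m
  have : Fact p.Prime := ⟨hp⟩
  obtain ⟨N₂, hN₂⟩ := exists_nat_gt (8 * (p : ℝ) ^ m / δ)
  refine ⟨N + N₂ + 16 * r, fun n hn => ?_⟩
  obtain ⟨G, hG⟩ : ∃ G, G = n / (8 * r) := ⟨_, rfl⟩
  have hG1 : 1 ≤ G := by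
    rw [hG, Nat.le_div_iff_mul_le (by omega)]
    omega
  have hG2 : 8 * r * G ≤ n := by
    rw [hG]
    exact Nat.mul_div_le n (8 * r)
  obtain ⟨π, hπ1, hπ2⟩ := hN n (by omega) G hG1 hG2
  obtain ⟨M, hM⟩ : ∃ M, M = s + (2 * s + 2) * (5 * k + 4 + 1) + 1 := ⟨_, rfl⟩
  obtain ⟨E, hE⟩ : ∃ E, E = 32 * (5 * k + 4 + 1) * (M * 2 ^ (5 * k + 4 + 1) +
    (5 * k + 4 + 1) + 1) := ⟨_, rfl⟩
  have hp1 : 4 ^ (E + 1) ≤ p := by
    refine le_trans ?_ hps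
    have h1 : (4 : ℕ) ^ (E + 1) = 2 ^ (2 * (E + 1)) := by rw [pow_mul]; norm_num
    rw [h1]
    apply Nat.pow_le_pow_right (by norm_num)
    have h2 : M ≤ (2 * r + 1) * (s + 1) := by
      rw [hM, ← hr]
      nlinarith
    have h3 : M * 2 ^ r + r + 1 ≤ ((2 * r + 1) * 2 ^ r + r + 1) * (s + 1) := by
      have h4 : M * 2 ^ r ≤ (2 * r + 1) * (s + 1) * 2 ^ r := Nat.mul_le_mul_right _ h2
      nlinarith
    have h5 : E ≤ 32 * r * (((2 * r + 1) * 2 ^ r + r + 1) * (s + 1)) := by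
      rw [hE, ← hr]
      exact Nat.mul_le_mul_left _ h3
    have h6 : 32 * r * (((2 * r + 1) * 2 ^ r + r + 1) * (s + 1)) =
        32 * r * ((2 * r + 1) * 2 ^ r + r + 1) * (s + 1) := by ring
    rw [h6] at h5
    exact exp_aux E _ s h5
  obtain ⟨c, hc⟩ := lower (n := n) (G := G) (p := p) (m := m) (k' := 5 * k + 4) (L := L) (M := M)
    (E := E) (k := k) (s := s) (C := C) (δ := δ) hδ0 hδ1 hC rfl hM hE hG (by omega) (by
      have h1 : 8 * (p : ℝ) ^ m < N₂ * δ := by rwa [div_lt_iff₀ hδ0] at hN₂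
      have h2 : (N₂ : ℝ) ≤ 2 ^ n := by
        have h3 : N₂ ≤ 2 ^ n := by
          have h4 : n < 2 ^ n := Nat.lt_two_pow_self
          omega
        exact_mod_cast h3
      nlinarith) hp1 (by
      have h1 : 6 * C < m₁ * δ := by rwa [div_lt_iff₀ hδ0] at hm₁
      have h2 : (m₁ : ℝ) ≤ m := by exact_mod_cast (by omega : m₁ ≤ m)
      nlinarith) (by omega) π (by
      intro Z hZ
      have h1 := hπ1 Z hZ
      rw [Nat.card_eq_fintype_card, Fintype.card_subtype]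
      convert h1) hπ2
  choose P hP using fun j => Pool.Agent.W366.QProg.prog n G p (5 * k + 4 + 1) hp.pos (π j) (c j)
  refine ⟨P, fun D T Q hQ hT hD α hcon => hc D T Q hQ hT hD α ⟨fun x hx => hcon.1 x ?_,
    fun x hx => hcon.2 x fun j hj => hx j ((hP j x).1 hj)⟩⟩
  simpa only [hP] using hx

/-- A single sequence for all constants. -/
theorem sequenceQ (β : ℕ → ℕ) (hβ : Tendsto β atTop atTop) :
    ∃ (p m : ℕ → ℕ) (P : ∀ n, Fin (m n) → OnePass n (ZMod (p n)) (p n * p n)),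
      (∀ n, (p n).Prime) ∧ (∀ᶠ n in atTop, m n * (p n * p n) ≤ β n) ∧
      ∀ K : ℕ, ∀ᶠ n in atTop, ∀ (D T : ℕ) (Q : Machine n (ZMod (p n)) D T), Q.Valid →
        T ≤ K * n → D ≤ 2 ^ (K * n) → ∀ α : ℝ, ¬ Tells Q (P n) α (1 / ((K : ℝ) + 1)) := by
  classical
  have h1 : ∀ k : ℕ, ∃ m p N : ℕ, p.Prime ∧ ∀ n ≥ N, ∃ P : Fin m → OnePass n (ZMod p) (p * p),
      ∀ (D T : ℕ) (Q : Machine n (ZMod p) D T), Q.Valid → T ≤ k * n → D ≤ 2 ^ (k * n) →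
        ∀ α : ℝ, ¬ Tells Q P α (1 / ((k : ℝ) + 1)) := by
    intro k
    obtain ⟨m₀, c₀, h⟩ := fixedQ k (1 / ((k : ℝ) + 1)) (by positivity) (by
      rw [div_le_one (by positivity)]
      have : (0 : ℝ) ≤ k := Nat.cast_nonneg k
      linarith)
    obtain ⟨p, hp1, hp2⟩ := Nat.exists_infinite_primes (2 ^ (c₀ * (k + 1)))
    obtain ⟨N, hN⟩ := h m₀ le_rfl k p hp2 hp1
    exact ⟨m₀, p, N, hp2, hN⟩
  choose m₁ p₁ N₁ hp₁ hN₁ using h1
  have h2 : ∀ k : ℕ, ∃ N, ∀ n ≥ N, N₁ k ≤ n ∧ m₁ k * (p₁ k * p₁ k) ≤ β n := by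
    intro k
    obtain ⟨N, hN⟩ := eventually_atTop.1 ((eventually_ge_atTop (N₁ k)).and
      (hβ.eventually_ge_atTop (m₁ k * (p₁ k * p₁ k))))
    exact ⟨N, fun n hn => hN n hn⟩
  choose N₂ hN₂ using h2
  set κ : ℕ → ℕ := fun n => Nat.findGreatest (fun k => N₂ k ≤ n) n with hκ
  have hκ1 : ∀ᶠ n in atTop, N₂ (κ n) ≤ n := by
    filter_upwards [eventually_ge_atTop (N₂ 0)] with n hn
    exact Nat.findGreatest_spec (P := fun k => N₂ k ≤ n) (Nat.zero_le n) hn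
  have hκ2 : ∀ K : ℕ, ∀ᶠ n in atTop, K ≤ κ n := by
    intro K
    filter_upwards [eventually_ge_atTop (N₂ K), eventually_ge_atTop K] with n hn hn'
    exact Nat.le_findGreatest hn' hn
  have h3 : ∀ n : ℕ, ∃ P : Fin (m₁ (κ n)) → OnePass n (ZMod (p₁ (κ n))) (p₁ (κ n) * p₁ (κ n)),
      N₁ (κ n) ≤ n → ∀ (D T : ℕ) (Q : Machine n (ZMod (p₁ (κ n))) D T), Q.Valid →
        T ≤ κ n * n → D ≤ 2 ^ (κ n * n) → ∀ α : ℝ, ¬ Tells Q P α (1 / ((κ n : ℝ) + 1)) := by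
    intro n
    by_cases h : N₁ (κ n) ≤ n
    · obtain ⟨P, hP⟩ := hN₁ (κ n) n h
      exact ⟨P, fun _ => hP⟩
    · have hpos : 0 < p₁ (κ n) * p₁ (κ n) := Nat.mul_pos (hp₁ _).pos (hp₁ _).pos
      exact ⟨fun _ => ⟨Equiv.refl _, ⟨0, hpos⟩, fun _ s _ => s, fun _ => True⟩,
        fun h' => absurd h' h⟩
  choose P hP using h3
  refine ⟨fun n => p₁ (κ n), fun n => m₁ (κ n), P, fun n => hp₁ _, ?_, ?_⟩
  · filter_upwards [hκ1] with n hn
    exact (hN₂ (κ n) n hn).2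
  · intro K
    filter_upwards [hκ1, hκ2 K] with n hn hn' D T Q hQ hT hD α hcon
    refine hP n (hN₂ (κ n) n hn).1 D T Q hQ (hT.trans (Nat.mul_le_mul_right _ hn'))
      (hD.trans (Nat.pow_le_pow_right (by norm_num) (Nat.mul_le_mul_right _ hn'))) α
      ⟨hcon.1, fun x hx => (hcon.2 x hx).trans ?_⟩
    have h4 : 1 / ((κ n : ℝ) + 1) ≤ 1 / ((K : ℝ) + 1) := by
      apply div_le_div_of_nonneg_left (by norm_num) (by positivity)
      have : (K : ℝ) ≤ κ n := by exact_mod_cast hn'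
      linarith
    linarith

end Pool.Agent.W902.Q
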