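import Mathlib

/-!
# One-pass programs, local forms, and the statements of three lemmas
-/

set_option autoImplicit false

open Finset

namespace Pool.Agent.W902.Q

/-- One-pass programs: the `n` words of the input are read once each, in the order `ord`, and the
program has `w` memory states. -/
structure OnePass (n : ℕ) (A : Type) (w : ℕ) where
  /-- the order in which the words are read -/
  ord : Equiv.Perm (Fin n)
  /-- the initial state -/
  init : Fin w
  /-- the next state, given the time, the state and the word read -/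
  step : Fin n → Fin w → A → Fin w
  /-- the accepting states -/
  acc : Fin w → Prop

/-- The state after `t` steps. -/
def OnePass.run {n : ℕ} {A : Type} {w : ℕ} (P : OnePass n A w) (x : Fin n → A) : ℕ → Fin w
  | 0 => P.init
  | t + 1 => if h : t < n then P.step ⟨t, h⟩ (P.run x t) (x (P.ord ⟨t, h⟩)) else P.run x t

/-- Acceptance: the state at the end is accepting. -/
def OnePass.Accepts {n : ℕ} {A : Type} {w : ℕ} (P : OnePass n A w) (x : Fin n → A) : Prop :=
  P.acc (P.run x n)

/-- The sum of the words of a group. -/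
def ell {n G p : ℕ} (π : Fin n → Fin G) (g : Fin G) (x : Fin n → ZMod p) : ZMod p :=
  ∑ v ∈ univ.filter (fun v => π v = g), x v

/-- The local form of degree `r` given by a partition into groups and coefficients. -/
def frm {n G p : ℕ} (r : ℕ) (π : Fin n → Fin G) (c : Fin G → ZMod p) (x : Fin n → ZMod p) :
    ZMod p :=
  ∑ g, c g * ell π g x ^ r

/-- At least half of the groups meet all of the sets. -/
def Good {n G r : ℕ} (π : Fin n → Fin G) (Z : Fin r → Finset (Fin n)) : Prop :=
  G ≤ 2 * (univ.filter fun g : Fin G => ∀ a, ∃ v ∈ Z a, π v = g).card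

/-- Statement: a local form is computed in one pass with `p * p` states. -/
def S_prog : Prop := ∀ (n G p r : ℕ), 0 < p → ∀ (π : Fin n → Fin G) (c : Fin G → ZMod p),
  ∃ P : OnePass n (ZMod p) (p * p), ∀ x, P.Accepts x ↔ frm r π c x = 0

open Classical in
/-- Statement: there are partitions all but few of which have many groups that meet `r` given
large sets. -/
def S_hit : Prop := ∀ r : ℕ, 1 ≤ r → ∃ L : ℕ, ∀ m : ℕ, ∃ N : ℕ, ∀ n ≥ N, ∀ G : ℕ, 1 ≤ G →
  8 * r * G ≤ n → ∃ π : Fin m → Fin n → Fin G,
    (∀ Z : Fin r → Finset (Fin n), (∀ a, n / 2 ≤ (Z a).card) →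
      (univ.filter fun j => ¬ Good (π j) Z).card ≤ L) ∧
    ∀ j, Good (π j) (fun _ : Fin r => (univ : Finset (Fin n)))

/-- Statement: the derivative at `0` of a polynomial of bounded degree is bounded in terms of its
size on `[0,1]`. -/
def S_deriv : Prop := ∀ L : ℕ, ∃ C : ℝ, ∀ b : Polynomial ℂ, b.natDegree ≤ L →
  (∀ q : ℝ, 0 ≤ q → q ≤ 1 → ‖b.eval (q : ℂ)‖ ≤ 1) → ‖b.derivative.eval 0‖ ≤ C

end Pool.Agent.W902.Q
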