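import Pool.Agent.W902.Q.All
import Pool.Agent.H554R2.RK.MinskyPapert

/-!
# Two alternations against unbounded error
-/

set_option autoImplicit false
set_option linter.unusedSectionVars false

open Finset Filter
open scoped BigOperators ComplexConjugate

namespace Pool.Agent.W902.Q

open Pool.Agent.W977.CQ Pool.Agent.H554R2.RK Pool.Agent.H554R2.Rnd

/-- Orthogonality to all products of few functions of one coordinate. -/
lemma orth_prod {M L : ℕ} (ψ : (Fin M → Bool) → ℝ)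
    (hψ : ∀ s : Finset (Fin M), s.card ≤ L → ∑ z, ψ z * ∏ i ∈ s, ((sgn (z i) : ℤ) : ℝ) = 0)
    (s : Finset (Fin M)) (hs : s.card ≤ L) (φ : Fin M → Bool → ℂ) :
    ∑ z, (ψ z : ℂ) * ∏ i ∈ s, φ i (z i) = 0 := by
  classical
  have h1 : ∀ (i : Fin M) (b : Bool), φ i b = (φ i true + φ i false) / 2 +
      (sgn true : ℂ) * ((φ i true - φ i false) / 2) * (sgn b : ℂ) := by
    intro i b
    cases b <;> simp [sgn] <;> ring
  have h2 : ∀ z : Fin M → Bool, ∏ i ∈ s, φ i (z i) = ∑ t ∈ s.powerset,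
      (∏ i ∈ t, ((sgn true : ℂ) * ((φ i true - φ i false) / 2) * (sgn (z i) : ℂ))) *
        ∏ i ∈ s \ t, ((φ i true + φ i false) / 2) := by
    intro z
    rw [← Finset.prod_add]
    refine prod_congr rfl fun i _ => ?_
    rw [h1 i (z i)]
    ring
  simp only [h2, mul_sum]
  rw [sum_comm]
  refine sum_eq_zero fun t ht => ?_
  rw [mem_powerset] at ht
  have h3 := hψ t ((card_le_card ht).trans hs)
  have h4 : ∀ z : Fin M → Bool, (ψ z : ℂ) *
      ((∏ i ∈ t, ((sgn true : ℂ) * ((φ i true - φ i false) / 2) * (sgn (z i) : ℂ))) *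
        ∏ i ∈ s \ t, ((φ i true + φ i false) / 2)) =
      ((∏ i ∈ t, ((sgn true : ℂ) * ((φ i true - φ i false) / 2))) *
        ∏ i ∈ s \ t, ((φ i true + φ i false) / 2)) *
        ((ψ z * ∏ i ∈ t, ((sgn (z i) : ℤ) : ℝ) : ℝ) : ℂ) := by
    intro z
    rw [prod_mul_distrib]
    push_cast
    ring
  simp only [h4]
  rw [← mul_sum, ← Complex.ofReal_sum, h3]
  simp

/-- The value with zeros where `z` is true, and ones elsewhere. -/
def zb {M p : ℕ} (z : Fin M → Bool) : Fin M → ZMod p := fun j => if z j = true then 0 else 1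

theorem sig_contra {M p L : ℕ} [Fact p.Prime] {X : Type} [Fintype X] [Nonempty X]
    (F : (Fin M → Bool) → Bool) (ψ : (Fin M → Bool) → ℝ) (hψ1 : ∀ z, F z = true → 0 ≤ ψ z)
    (hψ2 : ∀ z, F z = false → ψ z ≤ 0) (hψ3 : ∑ z, |ψ z| = 1)
    (hψ4 : ∀ s : Finset (Fin M), s.card ≤ L → ∑ z, ψ z * ∏ i ∈ s, ((sgn (z i) : ℤ) : ℝ) = 0)
    (g : X → Fin M → ZMod p) (h : X → ℝ) (ε θ : ℝ) (hε0 : 0 ≤ ε) (hθ0 : 0 < θ)
    (H1 : ∀ a : Fin M → ZMod p, a ≠ 0 → ‖𝔼 x, psi p (∑ j, a j * g x j)‖ ≤ ε)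
    (H2 : ∀ a : Fin M → ZMod p, L < (univ.filter fun j => a j ≠ 0).card →
      ‖𝔼 x, psi p (∑ j, a j * g x j) * (h x : ℂ)‖ ≤ ε)
    (hε1 : (p : ℝ) ^ M * ε ≤ 1 / 2) (hε2 : (p : ℝ) ^ M * ε < θ / 2)
    (hyes : ∀ x, F (fun j => decide (g x j = 0)) = true → θ ≤ h x)
    (hno : ∀ x, F (fun j => decide (g x j = 0)) = false → h x ≤ -θ) : False := by
  classical
  set η : ℝ := (p : ℝ) ^ M * ε with hη
  have hμ2 : ∀ z, 1 - η ≤ ww g (fun _ => 1) z := fun z => by
    have := (abs_le.1 (ww_one g hε0 H1 z)).1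
    linarith
  have hval : ∀ (z : Fin M → Bool) (x : X), g x = zb z → (fun j => decide (g x j = 0)) = z := by
    intro z x hx
    funext j
    rw [hx]
    unfold zb
    cases hz : z j <;> simp
  have h1 : ∀ z : Fin M → Bool, |ψ z| * (θ / 2) ≤ ψ z * ww g h (zb z) := by
    intro z
    have hη1 : 1 / 2 ≤ ww g (fun _ => 1) (zb z : Fin M → ZMod p) := by
      have := hμ2 (zb z)
      linarith
    cases hz : F z with
    | true =>
      have h2 := hψ1 z hz
      have h3 := le_ww g h (zb z) θ fun x hx => hyes x (by rw [hval z x hx]; exact hz)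
      rw [abs_of_nonneg h2]
      refine mul_le_mul_of_nonneg_left (le_trans ?_ h3) h2
      nlinarith
    | false =>
      have h2 := hψ2 z hz
      have h3 := ww_le g h (zb z) (-θ) fun x hx => hno x (by rw [hval z x hx]; exact hz)
      rw [abs_of_nonpos h2]
      have h4 : ww g h (zb z) ≤ -(θ / 2) := le_trans h3 (by nlinarith)
      nlinarith
  have h2 : θ / 2 ≤ ∑ z : Fin M → Bool, ψ z * ww g h (zb z) := by
    calc θ / 2 = ∑ z, |ψ z| * (θ / 2) := by rw [← sum_mul, hψ3, one_mul]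
      _ ≤ _ := sum_le_sum fun z _ => h1 z
  have h3 : ((∑ z : Fin M → Bool, ψ z * ww g h (zb z) : ℝ) : ℂ) =
      ∑ a : Fin M → ZMod p, uh g h a * ∑ z : Fin M → Bool, (ψ z : ℂ) *
        ∏ j ∈ univ.filter (fun j => a j ≠ 0), (if z j = true then 1 else psi p (-a j)) := by
    push_cast
    simp only [← inversion, mul_sum]
    rw [sum_comm]
    refine sum_congr rfl fun a _ => sum_congr rfl fun z _ => ?_
    have h4 : psi p (-∑ j, a j * zb z j) =
        ∏ j ∈ univ.filter (fun j => a j ≠ 0), (if z j = true then 1 else psi p (-a j)) := by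
      rw [← sum_neg_distrib, psi_sum]
      symm
      refine prod_subset_one_on_sdiff (subset_univ _) (fun j hj => ?_) (fun j _ => ?_)
      · have : a j = 0 := by
          by_contra hne
          exact (mem_sdiff.1 hj).2 (mem_filter.2 ⟨mem_univ _, hne⟩)
        rw [this]
        simp
      · unfold zb
        cases hz : z j <;> simp
    rw [h4]
    ring
  have h5 : ‖((∑ z : Fin M → Bool, ψ z * ww g h (zb z) : ℝ) : ℂ)‖ ≤ η := by
    rw [h3]
    refine (norm_sum_le _ _).trans ?_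
    have h6 : ∀ a ∈ (univ : Finset (Fin M → ZMod p)), ‖uh g h a * ∑ z : Fin M → Bool, (ψ z : ℂ) *
        ∏ j ∈ univ.filter (fun j => a j ≠ 0), (if z j = true then 1 else psi p (-a j))‖ ≤ ε := by
      intro a _
      by_cases ha : (univ.filter fun j => a j ≠ 0).card ≤ L
      · rw [orth_prod ψ hψ4 _ ha (fun j b => if b = true then 1 else psi p (-a j))]
        simpa using hε0
      · push Not at ha
        rw [norm_mul]
        have h7 := H2 a ha
        have h8 : ‖∑ z : Fin M → Bool, (ψ z : ℂ) *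
            ∏ j ∈ univ.filter (fun j => a j ≠ 0), (if z j = true then 1 else psi p (-a j))‖ ≤
            1 := by
          refine (norm_sum_le _ _).trans (le_trans (sum_le_sum fun z _ => ?_) hψ3.le)
          rw [norm_mul, Complex.norm_real, Real.norm_eq_abs, norm_prod]
          refine mul_le_of_le_one_right (abs_nonneg _) (Finset.prod_le_one
            (fun _ _ => norm_nonneg _) fun j _ => ?_)
          split_ifs
          · simp
          · rw [norm_psi]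
        calc ‖uh g h a‖ * _ ≤ ε * 1 := mul_le_mul h7 h8 (norm_nonneg _) hε0
          _ = ε := mul_one _
    refine (sum_le_sum h6).trans ?_
    rw [sum_const, card_univ, Fintype.card_fun, ZMod.card, Fintype.card_fin, nsmul_eq_mul, hη]
    push_cast
    exact le_rfl
  rw [Complex.norm_real, Real.norm_eq_abs] at h5
  have h6 := (le_abs_self _).trans h5
  linarith

/-- The machine decides the union over `i` of the intersections over `j` of the languages of the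
programs `P i j`, with unbounded error: the difference between the probabilities of the answers yes
and no is at least `θ` on yes-inputs and at most `-θ` on no-inputs. -/
def Tells2 {n t m w D T : ℕ} {A : Type} (Q : Machine n A D T)
    (P : Fin t → Fin m → OnePass n A w) (θ : ℝ) : Prop :=
  ∀ x, ((∃ i, ∀ j, (P i j).Accepts x) → θ ≤ Q.prob Q.yes x - Q.prob Q.no x) ∧
    ((¬ ∃ i, ∀ j, (P i j).Accepts x) → Q.prob Q.yes x - Q.prob Q.no x ≤ -θ)

/-- Fixed constants. -/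
theorem fixedS (k : ℕ) : ∃ t m c₀ : ℕ, ∀ s p : ℕ, p.Prime → 2 ^ (c₀ * (s + 1)) ≤ p → ∃ N,
    ∀ n ≥ N, ∃ P : Fin t → Fin m → OnePass n (ZMod p) (p * p),
      ∀ (D T : ℕ) (Q : Machine n (ZMod p) D T), Q.Valid → T ≤ k * n → D ≤ 2 ^ (s * n) →
        ¬ Tells2 Q P ((1 / 2) ^ (s * n)) := by
  classical
  obtain ⟨L, hL⟩ := Pool.Agent.W32.Q.main_hit (5 * k + 4 + 1) (by omega)
  set r : ℕ := 5 * k + 4 + 1 with hr
  obtain ⟨M', hM'⟩ : ∃ M', M' = (L + 1) * (4 * (L + 1) ^ 2) := ⟨_, rfl⟩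
  refine ⟨L + 1, 4 * (L + 1) ^ 2, 2 * (32 * r * ((2 * r + 2) * 2 ^ r + r + 1) + 1),
    fun s p hp hps => ?_⟩
  obtain ⟨N, hN⟩ := hL M'
  have : Fact p.Prime := ⟨hp⟩
  refine ⟨N + 8 * p ^ M' + 16 * r, fun n hn => ?_⟩
  obtain ⟨G, hG⟩ : ∃ G, G = n / (8 * r) := ⟨_, rfl⟩
  have hG1 : 1 ≤ G := by
    rw [hG, Nat.le_div_iff_mul_le (by omega)]
    omega
  have hG2 : 8 * r * G ≤ n := by
    rw [hG]
    exact Nat.mul_div_le n (8 * r)
  obtain ⟨π, hπ1, hπ2⟩ := hN n (by omega) G hG1 hG2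
  obtain ⟨M, hM⟩ : ∃ M, M = s + (2 * s + 2) * (5 * k + 4 + 1) + s + 1 := ⟨_, rfl⟩
  obtain ⟨E, hE⟩ : ∃ E, E = 32 * (5 * k + 4 + 1) * (M * 2 ^ (5 * k + 4 + 1) +
    (5 * k + 4 + 1) + 1) := ⟨_, rfl⟩
  have hp1 : 4 ^ (E + 1) ≤ p := by
    refine le_trans ?_ hps
    have h1 : (4 : ℕ) ^ (E + 1) = 2 ^ (2 * (E + 1)) := by rw [pow_mul]; norm_num
    rw [h1]
    apply Nat.pow_le_pow_right (by norm_num)
    have h2 : M ≤ (2 * r + 2) * (s + 1) := by
      rw [hM, ← hr]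
      nlinarith
    have h3 : M * 2 ^ r + r + 1 ≤ ((2 * r + 2) * 2 ^ r + r + 1) * (s + 1) := by
      have h4 : M * 2 ^ r ≤ (2 * r + 2) * (s + 1) * 2 ^ r := Nat.mul_le_mul_right _ h2
      nlinarith
    have h5 : E ≤ 32 * r * (((2 * r + 2) * 2 ^ r + r + 1) * (s + 1)) := by
      rw [hE, ← hr]
      exact Nat.mul_le_mul_left _ h3
    have h6 : 32 * r * (((2 * r + 2) * 2 ^ r + r + 1) * (s + 1)) =
        32 * r * ((2 * r + 2) * 2 ^ r + r + 1) * (s + 1) := by ring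
    rw [h6] at h5
    have h7 : ∀ E Y s : ℕ, E ≤ Y * (s + 1) → 2 * (E + 1) ≤ 2 * (Y + 1) * (s + 1) := by
      intro E Y s h
      have h8 : 2 * (Y + 1) * (s + 1) = 2 * (Y * (s + 1) + (s + 1)) := by ring
      rw [h8]
      exact Nat.mul_le_mul_left 2 (Nat.add_le_add h (Nat.le_add_left 1 s))
    exact h7 E _ s h5
  have hpn : 8 * p ^ M' ≤ 2 ^ n := by
    have h4 : n < 2 ^ n := Nat.lt_two_pow_self
    omega
  have hpnR : 8 * (p : ℝ) ^ M' ≤ 2 ^ n := by exact_mod_cast hpn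
  have hpM : (0 : ℝ) < (p : ℝ) ^ M' := by
    have : (0 : ℝ) < p := by exact_mod_cast hp.pos
    positivity
  obtain ⟨c, hc1, hc2⟩ := corr_all (n := n) (G := G) (p := p) (m := M') (k' := 5 * k + 4)
    (L := L) (M := M) (E := E) (k := k) (s := s) rfl hM hE hG (by omega) (by linarith)
    hp1 π (by
      intro Z hZ
      have h1 := hπ1 Z hZ
      rw [Nat.card_eq_fintype_card, Fintype.card_subtype]
      convert h1) hπ2
  choose P hP using fun j => Pool.Agent.W366.QProg.prog n G p (5 * k + 4 + 1) hp.pos (π j) (c j)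
  subst hM'
  refine ⟨fun i j => P (finProdFinEquiv (i, j)), fun D T Q hQ hT hD hcon => ?_⟩
  have hiff : ∀ x, orand (fun j => decide (frm (5 * k + 4 + 1) (π j) (c j) x = 0)) = true ↔
      ∃ i, ∀ j, (P (finProdFinEquiv (i, j))).Accepts x := by
    intro x
    unfold orand
    simp only [decide_eq_true_eq, hP]
  have hε : ∀ y : ℝ, y = (1 / 2) ^ ((s + 1) * n) →
      (p : ℝ) ^ ((L + 1) * (4 * (L + 1) ^ 2)) * (2 * y) ≤ (1 / 2) ^ (s * n) / 4 := by
    intro y hy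
    have h2 : (2 : ℝ) ^ n * (1 / 2) ^ n = 1 := by
      rw [← mul_pow]; norm_num
    have h3 : ((1 : ℝ) / 2) ^ ((s + 1) * n) = (1 / 2) ^ (s * n) * (1 / 2) ^ n := by
      rw [← pow_add]
      congr 1
      ring
    have h4 : (8 * (p : ℝ) ^ ((L + 1) * (4 * (L + 1) ^ 2))) * (1 / 2) ^ n ≤ 1 :=
      (mul_le_mul_of_nonneg_right hpnR (by positivity)).trans h2.le
    have h5 : (0 : ℝ) < (1 / 2) ^ (s * n) := by positivity
    rw [hy, h3]
    nlinarith
  have hp5 : (0 : ℝ) ≤ 2 * (1 / 2) ^ ((s + 1) * n) := by positivity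
  have hp6 : (0 : ℝ) < (1 / 2) ^ (s * n) := by positivity
  obtain ⟨ψ, hψ1, hψ2, hψ3, hψ4⟩ := minsky_papert L
  refine sig_contra orand ψ hψ1 hψ2 hψ3 hψ4
    (fun (x : Inp n p) j => frm (5 * k + 4 + 1) (π j) (c j) x)
    (fun x => Q.prob Q.yes x - Q.prob Q.no x) (2 * (1 / 2) ^ ((s + 1) * n)) ((1 / 2) ^ (s * n))
    hp5 hp6 ?_ ?_ ?_ ?_ (fun x hx => (hcon x).1 ((hiff x).1 hx))
    (fun x hx => (hcon x).2 fun h => ?_)
  · intro a ha
    refine (hc1 a ha).trans ?_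
    have : (0 : ℝ) ≤ (1 / 2) ^ ((s + 1) * n) := by positivity
    linarith
  · intro a ha
    have h1 := hc2 D T Q hQ hT hD Q.yes a ha
    have h2 := hc2 D T Q hQ hT hD Q.no a ha
    have h3 : 𝔼 x : Inp n p, psi p (∑ j, a j * frm (5 * k + 4 + 1) (π j) (c j) x) *
        ((Q.prob Q.yes x - Q.prob Q.no x : ℝ) : ℂ) =
        𝔼 x : Inp n p, psi p (∑ j, a j * frm (5 * k + 4 + 1) (π j) (c j) x) *
          ((Q.prob Q.yes x : ℝ) : ℂ) -
        𝔼 x : Inp n p, psi p (∑ j, a j * frm (5 * k + 4 + 1) (π j) (c j) x) *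
          ((Q.prob Q.no x : ℝ) : ℂ) := by
      rw [← expect_sub_distrib]
      refine expect_congr rfl fun x _ => ?_
      push_cast
      ring
    rw [h3]
    refine (norm_sub_le _ _).trans ?_
    linarith
  · refine (hε _ rfl).trans ?_
    have : ((1 : ℝ) / 2) ^ (s * n) ≤ 1 := pow_le_one₀ (by norm_num) (by norm_num)
    linarith
  · refine lt_of_le_of_lt (hε _ rfl) ?_
    have : (0 : ℝ) < (1 / 2) ^ (s * n) := by positivity
    linarith
  · rw [(hiff x).2 h] at hx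
    exact Bool.noConfusion hx

/-- A single sequence for all constants. -/
theorem sequenceS (β : ℕ → ℕ) (hβ : Tendsto β atTop atTop) :
    ∃ (p t m : ℕ → ℕ) (P : ∀ n, Fin (t n) → Fin (m n) → OnePass n (ZMod (p n)) (p n * p n)),
      (∀ n, (p n).Prime) ∧ (∀ᶠ n in atTop, t n * m n * (p n * p n) ≤ β n) ∧
      ∀ K : ℕ, ∀ᶠ n in atTop, ∀ (D T : ℕ) (Q : Machine n (ZMod (p n)) D T), Q.Valid →
        T ≤ K * n → D ≤ 2 ^ (K * n) → ¬ Tells2 Q (P n) ((1 / 2) ^ (K * n)) := by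
  classical
  have h1 : ∀ k : ℕ, ∃ t m p N : ℕ, p.Prime ∧ ∀ n ≥ N,
      ∃ P : Fin t → Fin m → OnePass n (ZMod p) (p * p),
      ∀ (D T : ℕ) (Q : Machine n (ZMod p) D T), Q.Valid → T ≤ k * n → D ≤ 2 ^ (k * n) →
        ¬ Tells2 Q P ((1 / 2) ^ (k * n)) := by
    intro k
    obtain ⟨t, m, c₀, h⟩ := fixedS k
    obtain ⟨p, hp1, hp2⟩ := Nat.exists_infinite_primes (2 ^ (c₀ * (k + 1)))
    obtain ⟨N, hN⟩ := h k p hp2 hp1
    exact ⟨t, m, p, N, hp2, hN⟩
  choose t₁ m₁ p₁ N₁ hp₁ hN₁ using h1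
  have h2 : ∀ k : ℕ, ∃ N, ∀ n ≥ N, N₁ k ≤ n ∧ t₁ k * m₁ k * (p₁ k * p₁ k) ≤ β n := by
    intro k
    obtain ⟨N, hN⟩ := eventually_atTop.1 ((eventually_ge_atTop (N₁ k)).and
      (hβ.eventually_ge_atTop (t₁ k * m₁ k * (p₁ k * p₁ k))))
    exact ⟨N, fun n hn => hN n hn⟩
  choose N₂ hN₂ using h2
  set κ : ℕ → ℕ := fun n => Nat.findGreatest (fun k => N₂ k ≤ n) n with hκ
  have hκ1 : ∀ᶠ n in atTop, N₂ (κ n) ≤ n := by
    filter_upwards [eventually_ge_atTop (N₂ 0)] with n hn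
    exact Nat.findGreatest_spec (P := fun k => N₂ k ≤ n) (Nat.zero_le n) hn
  have hκ2 : ∀ K : ℕ, ∀ᶠ n in atTop, K ≤ κ n := by
    intro K
    filter_upwards [eventually_ge_atTop (N₂ K), eventually_ge_atTop K] with n hn hn'
    exact Nat.le_findGreatest hn' hn
  have h3 : ∀ n : ℕ, ∃ P : Fin (t₁ (κ n)) → Fin (m₁ (κ n)) →
      OnePass n (ZMod (p₁ (κ n))) (p₁ (κ n) * p₁ (κ n)),
      N₁ (κ n) ≤ n → ∀ (D T : ℕ) (Q : Machine n (ZMod (p₁ (κ n))) D T), Q.Valid →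
        T ≤ κ n * n → D ≤ 2 ^ (κ n * n) → ¬ Tells2 Q P ((1 / 2) ^ (κ n * n)) := by
    intro n
    by_cases h : N₁ (κ n) ≤ n
    · obtain ⟨P, hP⟩ := hN₁ (κ n) n h
      exact ⟨P, fun _ => hP⟩
    · have hpos : 0 < p₁ (κ n) * p₁ (κ n) := Nat.mul_pos (hp₁ _).pos (hp₁ _).pos
      exact ⟨fun _ _ => ⟨Equiv.refl _, ⟨0, hpos⟩, fun _ s _ => s, fun _ => True⟩,
        fun h' => absurd h' h⟩
  choose P hP using h3
  refine ⟨fun n => p₁ (κ n), fun n => t₁ (κ n), fun n => m₁ (κ n), P, fun n => hp₁ _, ?_, ?_⟩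
  · filter_upwards [hκ1] with n hn
    exact (hN₂ (κ n) n hn).2
  · intro K
    filter_upwards [hκ1, hκ2 K] with n hn hn' D T Q hQ hT hD hcon
    have h4 : ((1 : ℝ) / 2) ^ (κ n * n) ≤ (1 / 2) ^ (K * n) :=
      pow_le_pow_of_le_one (by norm_num) (by norm_num) (Nat.mul_le_mul_right _ hn')
    refine hP n (hN₂ (κ n) n hn).1 D T Q hQ (hT.trans (Nat.mul_le_mul_right _ hn'))
      (hD.trans (Nat.pow_le_pow_right (by norm_num) (Nat.mul_le_mul_right _ hn')))
      fun x => ⟨fun hx => h4.trans ((hcon x).1 hx), fun hx => ((hcon x).2 hx).trans ?_⟩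
    linarith

end Pool.Agent.W902.Q
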