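import Pool.Agent.W902.Q.Deg

/-!
# Functions that are almost of low degree: the derivative at the value without zeros
-/

set_option autoImplicit false
set_option linter.unusedSectionVars false

open Finset
open scoped BigOperators ComplexConjugate

namespace Pool.Agent.W902.Q

open Pool.Agent.W977.CQ

variable {m p : ℕ} [Fact p.Prime] {X : Type} [Fintype X]

/-- The sum of the differences at the value without zeros is bounded in terms of the maximum. -/
theorem deg_core [Nonempty X] (L : ℕ) (C : ℝ)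
    (hC : ∀ b : Polynomial ℂ, b.natDegree ≤ L →
      (∀ q : ℝ, 0 ≤ q → q ≤ 1 → ‖b.eval (q : ℂ)‖ ≤ 1) → ‖b.derivative.eval 0‖ ≤ C)
    (g : X → Fin m → ZMod p) (u : X → ℝ) (hu0 : ∀ x, 0 ≤ u x)
    (ε B : ℝ) (hε0 : 0 ≤ ε) (hB : 0 < B)
    (H2 : ∀ a : Fin m → ZMod p, L < (univ.filter fun j => a j ≠ 0).card →
      ‖𝔼 x, psi p (∑ j, a j * g x j) * (u x : ℂ)‖ ≤ ε)
    (hw : ∀ Y : Finset (Fin m), ww g u (zz Y) ≤ B) :
    |∑ i : Fin m, (ww g u (zz {i}) - ww g u (zz ∅))| ≤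
      C * (B + (p : ℝ) ^ m * ε) + (p : ℝ) ^ m * ε * (2 * m) := by
  classical
  set η : ℝ := (p : ℝ) ^ m * ε with hη
  have hη0 : 0 ≤ η := by positivity
  -- low and high parts
  set Sl : Finset (Fin m → ZMod p) :=
    univ.filter fun a => (univ.filter fun j => a j ≠ 0).card ≤ L with hSl
  set Sh : Finset (Fin m → ZMod p) :=
    univ.filter fun a => ¬ (univ.filter fun j => a j ≠ 0).card ≤ L with hSh
  have hsplit : pl (uh g u) univ = pl (uh g u) Sl + pl (uh g u) Sh := by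
    unfold pl
    rw [hSl, hSh]
    exact (sum_filter_add_sum_filter_not _ _ _).symm
  have hcSh : ∀ a ∈ Sh, ‖uh g u a‖ ≤ ε := by
    intro a ha
    have := (mem_filter.1 ha).2
    push Not at this
    exact H2 a this
  have hfull : ∀ q : ℝ, 0 ≤ q → q ≤ 1 → ‖(pl (uh g u) univ).eval (q : ℂ)‖ ≤ B := by
    intro q h0 h1
    rw [pl_eval_univ]
    refine (norm_sum_le _ _).trans ?_
    have h2 : ∀ Y ∈ (univ : Finset (Finset (Fin m))), ‖(q : ℂ) ^ Y.card *
        (1 - (q : ℂ)) ^ Yᶜ.card * (ww g u (zz Y) : ℂ)‖ ≤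
        (q ^ Y.card * (1 - q) ^ Yᶜ.card) * B := by
      intro Y _
      have h3 : (q : ℂ) ^ Y.card * (1 - (q : ℂ)) ^ Yᶜ.card * (ww g u (zz Y) : ℂ) =
          ((q ^ Y.card * (1 - q) ^ Yᶜ.card * ww g u (zz Y) : ℝ) : ℂ) := by push_cast; rfl
      have h5 : 0 ≤ q ^ Y.card * (1 - q) ^ Yᶜ.card :=
        mul_nonneg (pow_nonneg h0 _) (pow_nonneg (by linarith) _)
      rw [h3, Complex.norm_real, Real.norm_of_nonneg (mul_nonneg h5 (ww_nonneg g u hu0 _))]
      exact mul_le_mul_of_nonneg_left (hw Y) h5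
    refine (sum_le_sum h2).trans ?_
    rw [← sum_mul]
    have h6 : ∑ Y : Finset (Fin m), q ^ Y.card * (1 - q) ^ Yᶜ.card = 1 := by
      have h7 := Finset.prod_add (fun _ : Fin m => q) (fun _ => 1 - q) univ
      simp only [prod_const, card_univ, Fintype.card_fin, add_sub_cancel, one_pow,
        Finset.powerset_univ] at h7
      refine Eq.trans ?_ h7.symm
      refine sum_congr rfl fun Y _ => ?_
      rw [← Finset.compl_eq_univ_sdiff]
    rw [h6, one_mul]
  have hBη : 0 < B + η := by linarith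
  have hcn : ‖(((B + η)⁻¹ : ℝ) : ℂ)‖ = (B + η)⁻¹ := by
    rw [Complex.norm_real, Real.norm_of_nonneg (inv_nonneg.2 hBη.le)]
  have hlow : ∀ q : ℝ, 0 ≤ q → q ≤ 1 →
      ‖(Polynomial.C (((B + η)⁻¹ : ℝ) : ℂ) * pl (uh g u) Sl).eval (q : ℂ)‖ ≤ 1 := by
    intro q h0 h1
    have h2 := hfull q h0 h1
    have h3 := pl_eval_norm (uh g u) Sh ε hcSh hε0 q h0 h1
    have h4 : (pl (uh g u) Sl).eval (q : ℂ) = (pl (uh g u) univ).eval (q : ℂ) -
        (pl (uh g u) Sh).eval (q : ℂ) := by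
      rw [hsplit, Polynomial.eval_add]
      ring
    rw [Polynomial.eval_mul, Polynomial.eval_C, norm_mul, hcn, h4]
    have h5 := norm_sub_le ((pl (uh g u) univ).eval (q : ℂ)) ((pl (uh g u) Sh).eval (q : ℂ))
    rw [← hη] at h3
    rw [inv_mul_le_iff₀ hBη, mul_one]
    linarith
  have hdeg : (Polynomial.C (((B + η)⁻¹ : ℝ) : ℂ) * pl (uh g u) Sl).natDegree ≤ L :=
    (Polynomial.natDegree_C_mul_le _ _).trans
      (pl_natDegree _ _ L fun a ha => (mem_filter.1 ha).2)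
  have hd1 := hC _ hdeg hlow
  have hd2 : ‖(pl (uh g u) Sl).derivative.eval 0‖ ≤ C * (B + η) := by
    rw [Polynomial.derivative_C_mul, Polynomial.eval_mul, Polynomial.eval_C, norm_mul, hcn,
      inv_mul_le_iff₀ hBη] at hd1
    linarith
  have hd3 := pl_deriv_norm (uh g u) Sh ε hcSh hε0
  rw [← hη] at hd3
  have hd4 : (pl (uh g u) univ).derivative.eval 0 =
      ((∑ i : Fin m, (ww g u (zz {i}) - ww g u (zz ∅)) : ℝ) : ℂ) := by
    rw [pl_deriv]
    simp only [mul_sum]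
    rw [sum_comm]
    push_cast
    refine sum_congr rfl fun i _ => ?_
    rw [← inversion, ← inversion, ← sum_sub_distrib]
    refine sum_congr rfl fun a _ => ?_
    rw [zz_sum, zz_sum, compl_empty]
    have h7 : ({i}ᶜ : Finset (Fin m)) = univ.erase i := by
      ext j; simp
    rw [h7, ← Finset.mul_prod_erase univ (fun j => psi p (-a j)) (mem_univ i)]
    ring
  have hd6 : ‖(pl (uh g u) univ).derivative.eval 0‖ ≤ C * (B + η) + η * (2 * m) := by
    rw [hsplit, Polynomial.derivative_add, Polynomial.eval_add]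
    exact (norm_add_le _ _).trans (add_le_add hd2 hd3)
  rw [hd4, Complex.norm_real, Real.norm_eq_abs] at hd6
  exact hd6

/-- A nonnegative function that is almost uncorrelated with all characters of large support, and is
at most `b` where there is a zero, is not much larger everywhere else. -/
theorem deg_contra1 [Nonempty X] (L : ℕ) (C : ℝ) (hC0 : 0 ≤ C)
    (hC : ∀ b : Polynomial ℂ, b.natDegree ≤ L →
      (∀ q : ℝ, 0 ≤ q → q ≤ 1 → ‖b.eval (q : ℂ)‖ ≤ 1) → ‖b.derivative.eval 0‖ ≤ C)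
    (g : X → Fin m → ZMod p) (u : X → ℝ) (hu0 : ∀ x, 0 ≤ u x)
    (ε ε' δ b : ℝ) (hε0 : 0 ≤ ε) (hε'0 : 0 ≤ ε') (hδ : 0 < δ) (hδ1 : δ ≤ 1) (hb : 0 < b)
    (H1 : ∀ a : Fin m → ZMod p, a ≠ 0 → ‖𝔼 x, psi p (∑ j, a j * g x j)‖ ≤ ε)
    (H2 : ∀ a : Fin m → ZMod p, L < (univ.filter fun j => a j ≠ 0).card →
      ‖𝔼 x, psi p (∑ j, a j * g x j) * (u x : ℂ)‖ ≤ ε')
    (hε : (p : ℝ) ^ m * ε ≤ δ / 8) (hε' : (p : ℝ) ^ m * ε' ≤ b * δ / 64)
    (hm : 10 * C < m * δ)
    (hyes : ∀ x, (∀ j, g x j ≠ 0) → (1 + δ) * b ≤ u x)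
    (hno : ∀ x, (∃ j, g x j = 0) → u x ≤ b) : False := by
  classical
  set η : ℝ := (p : ℝ) ^ m * ε with hη
  have hη0 : 0 ≤ η := by positivity
  have hμ : ∀ z, |ww g (fun _ => 1) z - 1| ≤ η := fun z => ww_one g hε0 H1 z
  have hμ1 : ∀ z, ww g (fun _ => 1) z ≤ 1 + η := fun z => by
    have := (abs_le.1 (hμ z)).2; linarith
  have hμ2 : ∀ z, 1 - η ≤ ww g (fun _ => 1) z := fun z => by
    have := (abs_le.1 (hμ z)).1; linarith
  have hz1 : ∀ (Y : Finset (Fin m)), Y.Nonempty → ∀ (x : X), g x = zz Y → ∃ j, g x j = 0 := by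
    rintro Y ⟨i, hi⟩ x hx
    refine ⟨i, ?_⟩
    simp only [hx, zz, hi, if_true]
  have hz0 : ∀ x : X, g x = zz ∅ → ∀ j, g x j ≠ 0 := by
    intro x hx j
    simp only [hx, zz, notMem_empty, if_false]
    exact one_ne_zero
  set A : ℝ := ww g u (zz ∅) with hA
  have hA1 : (1 + δ) * b * (1 - η) ≤ A := by
    have h1 := le_ww g u (zz ∅) ((1 + δ) * b) fun x hx => hyes x (hz0 x hx)
    refine le_trans (mul_le_mul_of_nonneg_left (hμ2 (zz ∅)) (by positivity)) h1
  have hY : ∀ Y : Finset (Fin m), Y.Nonempty → ww g u (zz Y) ≤ b * (1 + η) := by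
    intro Y hYn
    have h1 := ww_le g u (zz Y) b fun x hx => hno x (hz1 Y hYn x hx)
    exact h1.trans (mul_le_mul_of_nonneg_left (hμ1 _) hb.le)
  have hη8 : η ≤ δ / 8 := hε
  have hbA : b * (1 + η) ≤ A * (1 - δ / 4) := by
    have h1 : b * (1 + η) ≤ b * (1 + δ / 8) := mul_le_mul_of_nonneg_left (by linarith) hb.le
    have h2 : (1 + δ) * b * (1 - δ / 8) ≤ (1 + δ) * b * (1 - η) :=
      mul_le_mul_of_nonneg_left (by linarith) (by positivity)
    have h3 : (1 + δ) * b * (1 - δ / 8) * (1 - δ / 4) ≤ A * (1 - δ / 4) :=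
      mul_le_mul_of_nonneg_right (h2.trans hA1) (by linarith)
    have h4 : 1 + δ / 8 ≤ (1 + δ) * (1 - δ / 8) * (1 - δ / 4) := by
      nlinarith [mul_nonneg hδ.le (sub_nonneg.2 hδ1), mul_nonneg (mul_nonneg hδ.le hδ.le) hδ.le,
        mul_nonneg hδ.le hδ.le]
    have h5 : b * (1 + δ / 8) ≤ b * ((1 + δ) * (1 - δ / 8) * (1 - δ / 4)) :=
      mul_le_mul_of_nonneg_left h4 hb.le
    nlinarith
  have hA0 : 0 < A := by
    refine lt_of_lt_of_le ?_ hA1
    have : 0 < 1 - η := by linarith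
    positivity
  have hbA1 : b ≤ A := by
    have h1 : A * (1 - δ / 4) ≤ A := mul_le_of_le_one_right hA0.le (by linarith)
    nlinarith
  have h1 := deg_core L C hC g u hu0 ε' A hε'0 hA0 H2 (by
    intro Y
    rcases Y.eq_empty_or_nonempty with h | h
    · rw [h]
    · have h2 := (hY Y h).trans hbA
      have h3 : A * (1 - δ / 4) ≤ A := mul_le_of_le_one_right hA0.le (by linarith)
      exact h2.trans h3)
  have h2 : ∑ i : Fin m, (ww g u (zz {i}) - ww g u (zz ∅)) ≤ (m : ℝ) * (-(A * (δ / 4))) := by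
    have h3 : ∀ i ∈ (univ : Finset (Fin m)), ww g u (zz {i}) - ww g u (zz ∅) ≤
        -(A * (δ / 4)) := by
      intro i _
      have h4 := (hY {i} (singleton_nonempty i)).trans hbA
      rw [← hA]
      nlinarith
    have h5 := sum_le_sum h3
    rw [sum_const, card_univ, Fintype.card_fin, nsmul_eq_mul] at h5
    exact h5
  have h3 := (neg_abs_le (∑ i : Fin m, (ww g u (zz {i}) - ww g u (zz ∅))))
  have h4 : (m : ℝ) * (A * (δ / 4)) ≤
      C * (A + (p : ℝ) ^ m * ε') + (p : ℝ) ^ m * ε' * (2 * m) := by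
    linarith
  have hη' : (p : ℝ) ^ m * ε' ≤ A * δ / 64 := by
    refine hε'.trans ?_
    have := mul_le_mul_of_nonneg_right hbA1 hδ.le
    linarith
  have h5 : C * (A + (p : ℝ) ^ m * ε') ≤ C * (2 * A) := by
    apply mul_le_mul_of_nonneg_left _ hC0
    nlinarith
  have h6 : (p : ℝ) ^ m * ε' * (2 * m) ≤ (A * δ / 64) * (2 * m) :=
    mul_le_mul_of_nonneg_right hη' (by positivity)
  have h7 : (m : ℝ) * (A * (δ / 4)) ≤ C * (2 * A) + (A * δ / 64) * (2 * m) := by linarith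
  have h8 : A * ((m : ℝ) * δ * (7 / 32) - 2 * C) ≤ 0 := by nlinarith
  have h9 : (m : ℝ) * δ * (7 / 32) - 2 * C ≤ 0 := by
    by_contra hcon
    push Not at hcon
    have := mul_pos hA0 hcon
    linarith
  nlinarith

end Pool.Agent.W902.Q
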