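import Pool.Agent.W902.Q.All
import Pool.Agent.W902.Q.Deg1

/-!
# Co-nondeterministic one-pass programs against gap predicates of quantum machines
-/

set_option autoImplicit false
set_option linter.unusedSectionVars false

open Finset Filter
open scoped BigOperators ComplexConjugate

namespace Pool.Agent.W902.Q

open Pool.Agent.W977.CQ

/-- The gap predicate with threshold `b` and relative gap `δ` of the machine decides the language
of the inputs that are rejected by all of the programs. -/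
def GapTells {n m w D T : ℕ} {A : Type} (Q : Machine n A D T) (P : Fin m → OnePass n A w)
    (b δ : ℝ) : Prop :=
  (∀ x, (∀ j, ¬ (P j).Accepts x) → (1 + δ) * b ≤ Q.prob Q.yes x) ∧
    ∀ x, (∃ j, (P j).Accepts x) → Q.prob Q.yes x ≤ b

lemma exp_aux1 (E Y s : ℕ) (h : E ≤ Y * (s + 1)) : 2 * (E + 1) ≤ 2 * (Y + 1) * (s + 1) := by
  have h8 : 2 * (Y + 1) * (s + 1) = 2 * (Y * (s + 1) + (s + 1)) := by ring
  rw [h8]
  exact Nat.mul_le_mul_left 2 (Nat.add_le_add h (Nat.le_add_left 1 s))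

/-- Fixed constants. -/
theorem fixedB (k : ℕ) (δ : ℝ) (hδ0 : 0 < δ) (hδ1 : δ ≤ 1) : ∃ m₀ c₀ : ℕ, ∀ m ≥ m₀,
    ∀ s p : ℕ, p.Prime → 2 ^ (c₀ * (s + 1)) ≤ p → ∃ N, ∀ n ≥ N,
      ∃ P : Fin m → OnePass n (ZMod p) (p * p), ∀ (D T : ℕ) (Q : Machine n (ZMod p) D T),
        Q.Valid → T ≤ k * n → D ≤ 2 ^ (s * n) → ∀ b : ℝ, (1 / 2) ^ (s * n) ≤ b →
          ¬ GapTells Q P b δ := by
  classical
  obtain ⟨L, hL⟩ := Pool.Agent.W32.Q.main_hit (5 * k + 4 + 1) (by omega)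
  obtain ⟨C, hC⟩ := Pool.Agent.W462.QDERIV.deriv L
  have hC0 : 0 ≤ C := by
    have h1 := hC 0 (by simp) (fun q _ _ => by simp)
    simpa using h1
  obtain ⟨m₁, hm₁⟩ := exists_nat_gt (10 * C / δ)
  set r : ℕ := 5 * k + 4 + 1 with hr
  refine ⟨m₁ + 1, 2 * (32 * r * ((2 * r + 2) * 2 ^ r + r + 1) + 1), fun m hm s p hp hps => ?_⟩
  obtain ⟨N, hN⟩ := hL m
  have : Fact p.Prime := ⟨hp⟩
  obtain ⟨N₂, hN₂⟩ := exists_nat_gt (64 * (p : ℝ) ^ m / δ)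
  refine ⟨N + N₂ + 16 * r, fun n hn => ?_⟩
  obtain ⟨G, hG⟩ : ∃ G, G = n / (8 * r) := ⟨_, rfl⟩
  have hG1 : 1 ≤ G := by
    rw [hG, Nat.le_div_iff_mul_le (by omega)]
    omega
  have hG2 : 8 * r * G ≤ n := by
    rw [hG]
    exact Nat.mul_div_le n (8 * r)
  obtain ⟨π, hπ1, hπ2⟩ := hN n (by omega) G hG1 hG2
  obtain ⟨M, hM⟩ : ∃ M, M = s + (2 * s + 2) * (5 * k + 4 + 1) + s + 1 := ⟨_, rfl⟩
  obtain ⟨E, hE⟩ : ∃ E, E = 32 * (5 * k + 4 + 1) * (M * 2 ^ (5 * k + 4 + 1) +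
    (5 * k + 4 + 1) + 1) := ⟨_, rfl⟩
  have hp1 : 4 ^ (E + 1) ≤ p := by
    refine le_trans ?_ hps
    have h1 : (4 : ℕ) ^ (E + 1) = 2 ^ (2 * (E + 1)) := by rw [pow_mul]; norm_num
    rw [h1]
    apply Nat.pow_le_pow_right (by norm_num)
    have h2 : M ≤ (2 * r + 2) * (s + 1) := by
      rw [hM, ← hr]
      nlinarith
    have h3 : M * 2 ^ r + r + 1 ≤ ((2 * r + 2) * 2 ^ r + r + 1) * (s + 1) := by
      have h4 : M * 2 ^ r ≤ (2 * r + 2) * (s + 1) * 2 ^ r := Nat.mul_le_mul_right _ h2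
      nlinarith
    have h5 : E ≤ 32 * r * (((2 * r + 2) * 2 ^ r + r + 1) * (s + 1)) := by
      rw [hE, ← hr]
      exact Nat.mul_le_mul_left _ h3
    have h6 : 32 * r * (((2 * r + 2) * 2 ^ r + r + 1) * (s + 1)) =
        32 * r * ((2 * r + 2) * 2 ^ r + r + 1) * (s + 1) := by ring
    rw [h6] at h5
    exact exp_aux1 E _ s h5
  have hpn : 64 * (p : ℝ) ^ m ≤ δ * 2 ^ n := by
    have h1 : 64 * (p : ℝ) ^ m < N₂ * δ := by rwa [div_lt_iff₀ hδ0] at hN₂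
    have h2 : (N₂ : ℝ) ≤ 2 ^ n := by
      have h3 : N₂ ≤ 2 ^ n := by
        have h4 : n < 2 ^ n := Nat.lt_two_pow_self
        omega
      exact_mod_cast h3
    nlinarith
  have hpm : (p : ℝ) ^ m ≤ 2 ^ n := by
    have h1 : δ * 2 ^ n ≤ 2 ^ n := mul_le_of_le_one_left (by positivity) hδ1
    have h2 : (0 : ℝ) ≤ (p : ℝ) ^ m := by positivity
    linarith
  obtain ⟨c, hc1, hc2⟩ := corr_all (n := n) (G := G) (p := p) (m := m) (k' := 5 * k + 4)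
    (L := L) (M := M) (E := E) (k := k) (s := s) rfl hM hE hG (by omega) hpm
    hp1 π (by
      intro Z hZ
      have h1 := hπ1 Z hZ
      rw [Nat.card_eq_fintype_card, Fintype.card_subtype]
      convert h1) hπ2
  choose P hP using fun j => Pool.Agent.W366.QProg.prog n G p (5 * k + 4 + 1) hp.pos (π j) (c j)
  refine ⟨P, fun D T Q hQ hT hD b hb hcon => ?_⟩
  have h2n : (2 : ℝ) ^ n * (1 / 2) ^ n = 1 := by
    rw [← mul_pow]; norm_num
  have h64 : (64 * (p : ℝ) ^ m) * (1 / 2) ^ n ≤ δ := by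
    calc (64 * (p : ℝ) ^ m) * (1 / 2) ^ n ≤ δ * 2 ^ n * (1 / 2) ^ n :=
          mul_le_mul_of_nonneg_right hpn (by positivity)
      _ = δ := by rw [mul_assoc, h2n, mul_one]
  have hsn : ((1 : ℝ) / 2) ^ ((s + 1) * n) = (1 / 2) ^ (s * n) * (1 / 2) ^ n := by
    rw [← pow_add]
    congr 1
    ring
  have hsn1 : ((1 : ℝ) / 2) ^ (s * n) ≤ 1 := pow_le_one₀ (by norm_num) (by norm_num)
  have hsn0 : (0 : ℝ) < (1 / 2) ^ (s * n) := by positivity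
  have hb0 : 0 < b := lt_of_lt_of_le hsn0 hb
  have he : (p : ℝ) ^ m * (1 / 2) ^ ((s + 1) * n) ≤ (1 / 2) ^ (s * n) * (δ / 64) := by
    rw [hsn]
    have h1 : (p : ℝ) ^ m * ((1 / 2) ^ (s * n) * (1 / 2) ^ n) =
        (1 / 2) ^ (s * n) * ((64 * (p : ℝ) ^ m) * (1 / 2) ^ n / 64) := by ring
    rw [h1]
    apply mul_le_mul_of_nonneg_left _ hsn0.le
    linarith
  refine deg_contra1 L C hC0 hC (fun (x : Inp n p) j => frm (5 * k + 4 + 1) (π j) (c j) x)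
    (fun x => Q.prob Q.yes x) (fun x => prob_nonneg Q Q.yes x)
    ((1 / 2) ^ ((s + 1) * n)) ((1 / 2) ^ ((s + 1) * n)) δ b (by positivity) (by positivity)
    hδ0 hδ1 hb0 hc1 (fun a ha => hc2 D T Q hQ hT hD Q.yes a ha) ?_ ?_ ?_
    (fun x hx => hcon.1 x fun j hj => hx j ((hP j x).1 hj))
    (fun x hx => hcon.2 x (by
      obtain ⟨j, hj⟩ := hx
      exact ⟨j, (hP j x).2 hj⟩))
  · refine he.trans ?_
    have h1 : (1 / 2 : ℝ) ^ (s * n) * (δ / 64) ≤ 1 * (δ / 64) :=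
      mul_le_mul_of_nonneg_right hsn1 (by positivity)
    linarith
  · refine he.trans ?_
    have h1 : (1 / 2 : ℝ) ^ (s * n) * (δ / 64) ≤ b * (δ / 64) :=
      mul_le_mul_of_nonneg_right hb (by positivity)
    linarith
  · have h1 : 10 * C < m₁ * δ := by rwa [div_lt_iff₀ hδ0] at hm₁
    have h2 : (m₁ : ℝ) ≤ m := by exact_mod_cast (by omega : m₁ ≤ m)
    nlinarith

/-- A single sequence for all constants. -/
theorem sequenceB (β : ℕ → ℕ) (hβ : Tendsto β atTop atTop) :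
    ∃ (p m : ℕ → ℕ) (P : ∀ n, Fin (m n) → OnePass n (ZMod (p n)) (p n * p n)),
      (∀ n, (p n).Prime) ∧ (∀ᶠ n in atTop, m n * (p n * p n) ≤ β n) ∧
      ∀ K : ℕ, ∀ᶠ n in atTop, ∀ (D T : ℕ) (Q : Machine n (ZMod (p n)) D T), Q.Valid →
        T ≤ K * n → D ≤ 2 ^ (K * n) → ∀ b : ℝ, (1 / 2) ^ (K * n) ≤ b →
          ¬ GapTells Q (P n) b (1 / ((K : ℝ) + 1)) := by
  classical
  have h1 : ∀ k : ℕ, ∃ m p N : ℕ, p.Prime ∧ ∀ n ≥ N, ∃ P : Fin m → OnePass n (ZMod p) (p * p),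
      ∀ (D T : ℕ) (Q : Machine n (ZMod p) D T), Q.Valid → T ≤ k * n → D ≤ 2 ^ (k * n) →
        ∀ b : ℝ, (1 / 2) ^ (k * n) ≤ b → ¬ GapTells Q P b (1 / ((k : ℝ) + 1)) := by
    intro k
    obtain ⟨m₀, c₀, h⟩ := fixedB k (1 / ((k : ℝ) + 1)) (by positivity) (by
      rw [div_le_one (by positivity)]
      have : (0 : ℝ) ≤ k := Nat.cast_nonneg k
      linarith)
    obtain ⟨p, hp1, hp2⟩ := Nat.exists_infinite_primes (2 ^ (c₀ * (k + 1)))
    obtain ⟨N, hN⟩ := h m₀ le_rfl k p hp2 hp1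
    exact ⟨m₀, p, N, hp2, hN⟩
  choose m₁ p₁ N₁ hp₁ hN₁ using h1
  have h2 : ∀ k : ℕ, ∃ N, ∀ n ≥ N, N₁ k ≤ n ∧ m₁ k * (p₁ k * p₁ k) ≤ β n := by
    intro k
    obtain ⟨N, hN⟩ := eventually_atTop.1 ((eventually_ge_atTop (N₁ k)).and
      (hβ.eventually_ge_atTop (m₁ k * (p₁ k * p₁ k))))
    exact ⟨N, fun n hn => hN n hn⟩
  choose N₂ hN₂ using h2
  set κ : ℕ → ℕ := fun n => Nat.findGreatest (fun k => N₂ k ≤ n) n with hκ
  have hκ1 : ∀ᶠ n in atTop, N₂ (κ n) ≤ n := by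
    filter_upwards [eventually_ge_atTop (N₂ 0)] with n hn
    exact Nat.findGreatest_spec (P := fun k => N₂ k ≤ n) (Nat.zero_le n) hn
  have hκ2 : ∀ K : ℕ, ∀ᶠ n in atTop, K ≤ κ n := by
    intro K
    filter_upwards [eventually_ge_atTop (N₂ K), eventually_ge_atTop K] with n hn hn'
    exact Nat.le_findGreatest hn' hn
  have h3 : ∀ n : ℕ, ∃ P : Fin (m₁ (κ n)) → OnePass n (ZMod (p₁ (κ n))) (p₁ (κ n) * p₁ (κ n)),
      N₁ (κ n) ≤ n → ∀ (D T : ℕ) (Q : Machine n (ZMod (p₁ (κ n))) D T), Q.Valid →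
        T ≤ κ n * n → D ≤ 2 ^ (κ n * n) → ∀ b : ℝ, (1 / 2) ^ (κ n * n) ≤ b →
          ¬ GapTells Q P b (1 / ((κ n : ℝ) + 1)) := by
    intro n
    by_cases h : N₁ (κ n) ≤ n
    · obtain ⟨P, hP⟩ := hN₁ (κ n) n h
      exact ⟨P, fun _ => hP⟩
    · have hpos : 0 < p₁ (κ n) * p₁ (κ n) := Nat.mul_pos (hp₁ _).pos (hp₁ _).pos
      exact ⟨fun _ => ⟨Equiv.refl _, ⟨0, hpos⟩, fun _ s _ => s, fun _ => True⟩,
        fun h' => absurd h' h⟩
  choose P hP using h3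
  refine ⟨fun n => p₁ (κ n), fun n => m₁ (κ n), P, fun n => hp₁ _, ?_, ?_⟩
  · filter_upwards [hκ1] with n hn
    exact (hN₂ (κ n) n hn).2
  · intro K
    filter_upwards [hκ1, hκ2 K] with n hn hn' D T Q hQ hT hD b hb hcon
    have h4 : ((1 : ℝ) / 2) ^ (κ n * n) ≤ (1 / 2) ^ (K * n) :=
      pow_le_pow_of_le_one (by norm_num) (by norm_num) (Nat.mul_le_mul_right _ hn')
    have hb0 : 0 ≤ b := le_trans (by positivity) hb
    refine hP n (hN₂ (κ n) n hn).1 D T Q hQ (hT.trans (Nat.mul_le_mul_right _ hn'))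
      (hD.trans (Nat.pow_le_pow_right (by norm_num) (Nat.mul_le_mul_right _ hn'))) b
      (h4.trans hb) ⟨fun x hx => le_trans ?_ (hcon.1 x hx), hcon.2⟩
    have h5 : 1 / ((κ n : ℝ) + 1) ≤ 1 / ((K : ℝ) + 1) := by
      apply div_le_div_of_nonneg_left (by norm_num) (by positivity)
      have : (K : ℝ) ≤ κ n := by exact_mod_cast hn'
      linarith
    exact mul_le_mul_of_nonneg_right (by linarith) hb0

end Pool.Agent.W902.Q
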