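import Pool.Agent.W902.Q.Nrm

/-!
# Coefficients for which all norms are small
-/

set_option autoImplicit false
set_option linter.unusedSectionVars false

open Finset
open scoped BigOperators ComplexConjugate

namespace Pool.Agent.W902.Q

open Pool.Agent.W977.CQ

variable {n G p m : ℕ} [Fact p.Prime]

lemma Nn_nonneg (Zs : List (Finset (Fin n))) (Z₁ : Finset (Fin n)) :
    ∀ F : Inp n p → ZMod p, 0 ≤ Nn Zs Z₁ F := by
  induction Zs with
  | nil => intro F; exact norm_nonneg _
  | cons Z Zs ih => intro F; exact expect_nonneg fun h _ => ih _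

/-- The norm for a tuple of sets. -/
noncomputable def NN {k : ℕ} (Z : Fin (k + 1) → Finset (Fin n)) (F : Inp n p → ZMod p) : ℝ :=
  Nn (List.ofFn fun i : Fin k => Z i.succ) (Z 0) F

/-- The combination of the forms with the coefficients `a`. -/
def tot (r : ℕ) (π : Fin m → Fin n → Fin G) (a : Fin m → ZMod p) (c : Fin m → Fin G → ZMod p)
    (x : Inp n p) : ZMod p :=
  ∑ j, a j * frm r (π j) (c j) x

lemma expect_update {α : Type} [Fintype α] (j : Fin m) (f : (Fin m → α) → ℝ) :
    𝔼 c : Fin m → α, f c = 𝔼 c : Fin m → α, 𝔼 c' : α, f (Function.update c j c') := by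
  classical
  rcases isEmpty_or_nonempty α with hα | hα
  · have : IsEmpty (Fin m → α) := ⟨fun c => hα.elim (c j)⟩
    simp
  have h1 : 𝔼 c : Fin m → α, 𝔼 c' : α, f (Function.update c j c') =
      𝔼 q : (Fin m → α) × α, f (Function.update q.1 j q.2) := by
    rw [← Finset.univ_product_univ, Finset.expect_product]
  have h2 : 𝔼 c : Fin m → α, f c = 𝔼 q : (Fin m → α) × α, f q.1 := by
    rw [← Finset.univ_product_univ, Finset.expect_product]
    simp only [Fintype.expect_const]
  rw [h1, h2]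
  refine Fintype.expect_equiv (⟨fun q => (Function.update q.1 j q.2, q.1 j),
    fun q => (Function.update q.1 j q.2, q.1 j), ?_, ?_⟩ : (Fin m → α) × α ≃ (Fin m → α) × α)
    _ _ ?_
  · rintro ⟨c, c'⟩
    simp
  · rintro ⟨c, c'⟩
    simp
  · rintro ⟨c, c'⟩
    simp

lemma expect_NN {k : ℕ} (hk : k + 1 < p) (hb : Real.sqrt (1 / p) + (k : ℝ) / p ≤ 1)
    (π : Fin m → Fin n → Fin G) (Z : Fin (k + 1) → Finset (Fin n)) (a : Fin m → ZMod p)
    (h : ∃ j, a j ≠ 0 ∧ Good (π j) Z) :
    𝔼 c : Fin m → Fin G → ZMod p, NN Z (tot (k + 1) π a c) ≤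
      (Real.sqrt (1 / p) + (k : ℝ) / p) ^ (G / 2) := by
  classical
  obtain ⟨j, haj, hj⟩ := h
  rw [expect_update j]
  have key : ∀ c : Fin m → Fin G → ZMod p, 𝔼 c' : Fin G → ZMod p,
      NN Z (tot (k + 1) π a (Function.update c j c')) ≤
      (Real.sqrt (1 / p) + (k : ℝ) / p) ^ (G / 2) := by
    intro c
    set H := univ.filter fun g : Fin G => ∀ i, ∃ v ∈ Z i, π j v = g with hH
    have hH' : ∀ g ∈ H, ∀ i, ∃ v ∈ Z i, π j v = g := fun g hg => (mem_filter.1 hg).2
    have h1 := nn_avg (π j) H (Z₁ := Z 0) (fun g hg => hH' g hg 0)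
      (List.ofFn fun i : Fin k => Z i.succ) (by
        intro Z' hZ' g hg
        rw [List.mem_ofFn] at hZ'
        obtain ⟨i, rfl⟩ := hZ'
        exact hH' g hg _) (by rw [List.length_ofFn]; exact hk) (a j) (fun _ => 1)
      (fun _ => Polynomial.C (a j) * Polynomial.X ^ (k + 1))
      (fun x => ∑ i ∈ univ.erase j, a i * frm (k + 1) (π i) (c i) x) haj
      (fun g => by
        rw [List.length_ofFn]
        exact Polynomial.natDegree_C_mul_X_pow_le _ _)
      (fun g => by
        rw [List.length_ofFn, Polynomial.coeff_C_mul_X_pow]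
        simp)
    have h2 : ∀ c' : Fin G → ZMod p, (fun x : Inp n p => ∑ g, c' g *
        (Polynomial.C (a j) * Polynomial.X ^ (k + 1)).eval (ell (π j) g x) +
        ∑ i ∈ univ.erase j, a i * frm (k + 1) (π i) (c i) x) =
        tot (k + 1) π a (Function.update c j c') := by
      intro c'
      funext x
      unfold tot
      rw [← Finset.add_sum_erase univ _ (mem_univ j)]
      congr 1
      · rw [Function.update_self]
        unfold frm
        rw [mul_sum]
        refine sum_congr rfl fun g _ => ?_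
        simp only [Polynomial.eval_mul, Polynomial.eval_C, Polynomial.eval_pow, Polynomial.eval_X]
        ring
      · refine sum_congr rfl fun i hi => ?_
        rw [Function.update_of_ne (ne_of_mem_erase hi)]
    simp only [h2] at h1
    refine h1.trans ?_
    rw [prod_const, List.length_ofFn]
    unfold bt
    rw [if_neg one_ne_zero]
    refine pow_le_pow_of_le_one (by positivity) hb ?_
    have : G ≤ 2 * H.card := hj
    omega
  refine (expect_le_expect fun c _ => key c).trans ?_
  rw [Fintype.expect_const]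

/-- Coefficients for which all norms are small. -/
theorem exists_coef {k : ℕ} (hk : k + 1 < p) (hb : Real.sqrt (1 / p) + (k : ℝ) / p ≤ 1)
    (π : Fin m → Fin n → Fin G) :
    ∃ c : Fin m → Fin G → ZMod p, ∀ (Z : Fin (k + 1) → Finset (Fin n)) (a : Fin m → ZMod p),
      (∃ j, a j ≠ 0 ∧ Good (π j) Z) →
      NN Z (tot (k + 1) π a c) ≤ 2 ^ (n * (k + 1)) * (p : ℝ) ^ m *
        (Real.sqrt (1 / p) + (k : ℝ) / p) ^ (G / 2) := by
  classical
  set τ : ℝ := (Real.sqrt (1 / p) + (k : ℝ) / p) ^ (G / 2) with hτ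
  have hτ0 : 0 ≤ τ := by positivity
  set S : Finset ((Fin (k + 1) → Finset (Fin n)) × (Fin m → ZMod p)) :=
    univ.filter fun q => ∃ j, q.2 j ≠ 0 ∧ Good (π j) q.1 with hS
  have h1 : 𝔼 c : Fin m → Fin G → ZMod p, ∑ q ∈ S, NN q.1 (tot (k + 1) π q.2 c) ≤
      S.card * τ := by
    rw [expect_sum_comm]
    refine (sum_le_sum fun q hq => expect_NN hk hb π q.1 q.2 (mem_filter.1 hq).2).trans ?_
    rw [sum_const, nsmul_eq_mul]
  obtain ⟨c, -, hc⟩ := exists_le_of_expect_le univ_nonempty h1
  refine ⟨c, fun Z a hZa => ?_⟩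
  have h3 : NN Z (tot (k + 1) π a c) ≤ ∑ q ∈ S, NN q.1 (tot (k + 1) π q.2 c) :=
    single_le_sum (f := fun q : (Fin (k + 1) → Finset (Fin n)) × (Fin m → ZMod p) =>
      NN q.1 (tot (k + 1) π q.2 c)) (fun q _ => Nn_nonneg _ _ _)
      (mem_filter.2 ⟨mem_univ (Z, a), hZa⟩)
  refine h3.trans (hc.trans (mul_le_mul_of_nonneg_right ?_ hτ0))
  have h4 : S.card ≤ 2 ^ (n * (k + 1)) * p ^ m := by
    refine (card_le_univ S).trans (le_of_eq ?_)
    rw [Fintype.card_prod, Fintype.card_fun, Fintype.card_fun, Fintype.card_finset,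
      Fintype.card_fin, Fintype.card_fin, Fintype.card_fin, ZMod.card, pow_mul]
  exact_mod_cast h4

end Pool.Agent.W902.Q
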