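import Pool.Agent.W977.CQ.Core
import Pool.Agent.W902.Q.Cof

/-!
# Machines are uncorrelated with functions of small norm
-/

set_option autoImplicit false
set_option linter.unusedSectionVars false

open Finset Matrix
open scoped BigOperators ComplexConjugate

namespace Pool.Agent.W902.Q

open Pool.Agent.W977.CQ

variable {n p : ℕ} [Fact p.Prime]

/-- From the norms to the correlations with products of blind functions. -/
lemma nof_of_NN {k s₀ : ℕ} (F : Inp n p → ZMod p) {lam B : ℝ} (hB : 0 ≤ B)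
    (hlam : lam ≤ B ^ 2 ^ (k + 1))
    (hN : ∀ Z : Fin (k + 1) → Finset (Fin n), (∀ i, (Z i).card = s₀) → NN Z F ≤ lam)
    (l : List ((Inp n p → ℂ) × Finset (Fin n))) (hl : l.length = k + 1)
    (hq : ∀ q ∈ l, Blind q ∧ q.2.card = s₀) :
    ‖𝔼 x : Inp n p, psi p (F x) * (l.map fun q => q.1 x).prod‖ ≤ B := by
  obtain ⟨q, l, rfl⟩ := List.exists_cons_of_length_eq_add_one hl
  have hl' : l.length = k := by simpa using hl
  have h1 := nof_aux q.2 k l q.1 F hl' (hq q (List.mem_cons_self ..)).1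
    fun q' h => (hq q' (List.mem_cons_of_mem _ h)).1
  set Z : Fin (k + 1) → Finset (Fin n) := Fin.cons q.2 fun i : Fin k =>
    (l.get (i.cast hl'.symm)).2 with hZ
  have h2 : NN Z F = Nn (l.map Prod.snd) q.2 F := by
    unfold NN
    congr 1
    rw [hZ]
    simp only [Fin.cons_succ]
    apply List.ext_getElem
    · simp [hl']
    · intro i hi1 hi2
      simp
  have h3 := hN Z (by
    intro i
    rw [hZ]
    refine Fin.cases ?_ (fun i => ?_) i
    · simp only [Fin.cons_zero]
      exact (hq q (List.mem_cons_self ..)).2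
    · simp only [Fin.cons_succ]
      exact (hq _ (List.mem_cons_of_mem _ (List.get_mem _ _))).2)
  rw [h2] at h3
  have h4 : ‖𝔼 x : Inp n p, psi p (F x) * q.1 x * (l.map fun q => q.1 x).prod‖ ^ 2 ^ (k + 1) ≤
      B ^ 2 ^ (k + 1) := h1.trans (h3.trans hlam)
  have h5 := (pow_le_pow_iff_left₀ (norm_nonneg _) hB (by positivity)).1 h4
  refine le_trans (le_of_eq ?_) h5
  congr 1
  refine expect_congr rfl fun x _ => ?_
  simp only [List.map_cons, List.prod_cons]
  ring

/-- The correlation of the acceptance probability of a machine with a function. -/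
lemma corr_machine {D T : ℕ} (Q : Machine n (ZMod p) D T) (hQ : Q.Valid) (χ : Inp n p → ℂ)
    {r d s₀ : ℕ} {B : ℝ} (hd : 2 * d + s₀ ≤ n) (hT : T ≤ r * d)
    (hB : ∀ l : List ((Inp n p → ℂ) × Finset (Fin n)), l.length = r →
      (∀ q ∈ l, Blind q ∧ q.2.card = s₀) →
      ‖𝔼 x : Inp n p, χ x * (l.map fun q => q.1 x).prod‖ ≤ B) (S : Finset (Fin D)) :
    ‖𝔼 x : Inp n p, χ x * ((Q.prob S x : ℝ) : ℂ)‖ ≤
      D * (((D : ℝ) ^ 2 * 3 ^ n) ^ r * B) := by
  have h1 : ∀ c : Fin D, ‖𝔼 x : Inp n p, χ x * Q.state x T c c‖ ≤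
      ((D : ℝ) ^ 2 * 3 ^ n) ^ r * B := by
    intro c
    have h2 := corr_blk Q hQ χ hd hB r [] (c, c) (Q.init, Q.init) (by simp) (by simp)
    simp only [List.map_nil, List.prod_nil, mul_one] at h2
    refine le_trans (le_of_eq ?_) h2
    congr 1
    refine expect_congr rfl fun x _ => ?_
    rw [← state_eq, state_ge Q x (r * d) hT]
  have h0 : 0 ≤ ((D : ℝ) ^ 2 * 3 ^ n) ^ r * B := (norm_nonneg _).trans (h1 Q.init)
  have h2 : ∀ x : Inp n p, ((Q.prob S x : ℝ) : ℂ) = ∑ c ∈ S, Q.state x T c c := by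
    intro x
    unfold Machine.prob
    push_cast
    refine sum_congr rfl fun c _ => ?_
    exact Complex.conj_eq_iff_re.1 (state_herm Q x T c c)
  simp only [h2, mul_sum]
  rw [expect_sum_comm]
  refine (norm_sum_le _ _).trans ((sum_le_sum fun c _ => h1 c).trans ?_)
  rw [sum_const, nsmul_eq_mul]
  refine mul_le_mul_of_nonneg_right ?_ h0
  have := card_le_univ S
  rw [Fintype.card_fin] at this
  exact_mod_cast this

/-- Diagonal entries of the state are nonnegative and sum up to one. -/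
lemma blk_trace {D T : ℕ} (Q : Machine n (ZMod p) D T) (hQ : Q.Valid) (x : Inp n p) (t : ℕ) :
    ∑ c, Q.state x t c c = 1 := by
  induction t with
  | zero =>
    simp only [Machine.state]
    simp [Matrix.single, Matrix.of_apply]
  | succ t ih =>
    simp only [Machine.state]
    split_ifs with h
    · have h1 : ∑ c, (∑ ν, Q.kr x ⟨t, h⟩ ν * Q.state x t * (Q.kr x ⟨t, h⟩ ν)ᴴ) c c =
          (∑ ν, Q.kr x ⟨t, h⟩ ν * Q.state x t * (Q.kr x ⟨t, h⟩ ν)ᴴ).trace := rfl
      rw [h1, Matrix.trace_sum]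
      have h2 : ∀ ν, (Q.kr x ⟨t, h⟩ ν * Q.state x t * (Q.kr x ⟨t, h⟩ ν)ᴴ).trace =
          ((Q.kr x ⟨t, h⟩ ν)ᴴ * Q.kr x ⟨t, h⟩ ν * Q.state x t).trace := by
        intro ν
        rw [Matrix.trace_mul_comm, ← Matrix.mul_assoc]
      simp only [h2]
      rw [← Matrix.trace_sum, ← Matrix.sum_mul, hQ.1 x ⟨t, h⟩, Matrix.one_mul]
      exact ih
    · exact ih

end Pool.Agent.W902.Q
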