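import Pool.Agent.W902.Q.Nrm

/-!
# Bounded functions that are almost of low degree do not notice one zero
-/

set_option autoImplicit false
set_option linter.unusedSectionVars false

open Finset
open scoped BigOperators ComplexConjugate

namespace Pool.Agent.W902.Q

open Pool.Agent.W977.CQ

variable {m p : ℕ} [Fact p.Prime]

lemma sum_char (δ : Fin m → ZMod p) : ∑ a : Fin m → ZMod p, psi p (∑ j, a j * δ j) =
    if δ = 0 then (p : ℂ) ^ m else 0 := by
  classical
  have h3 : ∀ a : Fin m → ZMod p, psi p (∑ j, a j * δ j) = ∏ j, psi p (a j * δ j) :=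
    fun a => psi_sum _ _
  simp only [h3]
  rw [← Fintype.piFinset_univ, ← Finset.prod_univ_sum (fun _ => (univ : Finset (ZMod p)))
    (fun j a => psi p (a * δ j))]
  split_ifs with h
  · rw [h]
    simp [ZMod.card]
  · obtain ⟨j, hj⟩ := Function.ne_iff.1 h
    apply Finset.prod_eq_zero (mem_univ j)
    have h2 := AddChar.sum_mulShift (δ j) (ZMod.isPrimitive_stdAddChar p)
    have hj' : δ j ≠ 0 := hj
    rw [if_neg hj', Nat.cast_zero] at h2
    exact h2

variable {X : Type} [Fintype X]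

/-- Fourier coefficients. -/
noncomputable def uh (g : X → Fin m → ZMod p) (u : X → ℝ) (a : Fin m → ZMod p) : ℂ :=
  𝔼 x, psi p (∑ j, a j * g x j) * (u x : ℂ)

/-- The mass of a value, times the number of values. -/
noncomputable def ww (g : X → Fin m → ZMod p) (u : X → ℝ) (z : Fin m → ZMod p) : ℝ :=
  (p : ℝ) ^ m * 𝔼 x, if g x = z then u x else 0

lemma inversion (g : X → Fin m → ZMod p) (u : X → ℝ) (z : Fin m → ZMod p) :
    ∑ a : Fin m → ZMod p, uh g u a * psi p (-∑ j, a j * z j) = (ww g u z : ℂ) := by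
  classical
  unfold uh ww
  have h1 : ∀ a : Fin m → ZMod p, (𝔼 x, psi p (∑ j, a j * g x j) * (u x : ℂ)) *
      psi p (-∑ j, a j * z j) = 𝔼 x, psi p (∑ j, a j * (g x j - z j)) * (u x : ℂ) := by
    intro a
    rw [expect_mul]
    refine expect_congr rfl fun x _ => ?_
    have : ∑ j, a j * (g x j - z j) = ∑ j, a j * g x j + -∑ j, a j * z j := by
      rw [← sum_neg_distrib, ← sum_add_distrib]
      exact sum_congr rfl fun j _ => by ring
    rw [this, AddChar.map_add_eq_mul]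
    ring
  simp only [h1]
  rw [← expect_sum_comm]
  have h2 : ∀ x, ∑ a : Fin m → ZMod p, psi p (∑ j, a j * (g x j - z j)) * (u x : ℂ) =
      (((p : ℝ) ^ m * if g x = z then u x else 0 : ℝ) : ℂ) := by
    intro x
    rw [← sum_mul, sum_char (fun j => g x j - z j)]
    have : ((fun j => g x j - z j) = 0) ↔ g x = z := by
      rw [← sub_eq_zero (a := g x)]
      rfl
    simp only [this]
    split_ifs <;> push_cast <;> ring
  simp only [h2]
  rw [mul_expect, Fintype.expect_eq_sum_div_card, Fintype.expect_eq_sum_div_card]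
  push_cast
  rfl

lemma ww_one (g : X → Fin m → ZMod p) [Nonempty X] {ε : ℝ} (hε : 0 ≤ ε)
    (H1 : ∀ a : Fin m → ZMod p, a ≠ 0 → ‖𝔼 x, psi p (∑ j, a j * g x j)‖ ≤ ε)
    (z : Fin m → ZMod p) : |ww g (fun _ => 1) z - 1| ≤ (p : ℝ) ^ m * ε := by
  classical
  have h1 := inversion g (fun _ => 1) z
  have h2 : ∀ a, uh g (fun _ => 1) a = 𝔼 x, psi p (∑ j, a j * g x j) := by
    intro a
    unfold uh
    simp
  have h3 : uh g (fun _ => 1) (0 : Fin m → ZMod p) * psi p (-∑ j, (0 : Fin m → ZMod p) j * z j) =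
      1 := by
    rw [h2]
    simp
  rw [← Finset.add_sum_erase univ _ (mem_univ (0 : Fin m → ZMod p)), h3] at h1
  have h4 : ((ww g (fun _ => 1) z - 1 : ℝ) : ℂ) =
      ∑ a ∈ univ.erase (0 : Fin m → ZMod p), uh g (fun _ => 1) a * psi p (-∑ j, a j * z j) := by
    push_cast
    rw [← h1]
    ring
  have h5 : |ww g (fun _ => 1) z - 1| = ‖((ww g (fun _ => 1) z - 1 : ℝ) : ℂ)‖ := by
    rw [Complex.norm_real, Real.norm_eq_abs]
  rw [h5, h4]
  refine (norm_sum_le _ _).trans ?_
  calc ∑ a ∈ univ.erase (0 : Fin m → ZMod p), ‖uh g (fun _ => 1) a * psi p (-∑ j, a j * z j)‖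
      ≤ ∑ a ∈ univ.erase (0 : Fin m → ZMod p), ε := by
        refine sum_le_sum fun a ha => ?_
        rw [norm_mul, norm_psi, mul_one, h2]
        exact H1 a (ne_of_mem_erase ha)
    _ ≤ ∑ _a : Fin m → ZMod p, ε :=
        sum_le_sum_of_subset_of_nonneg (erase_subset _ _) fun _ _ _ => hε
    _ = (p : ℝ) ^ m * ε := by
        rw [sum_const, card_univ, Fintype.card_fun, ZMod.card, Fintype.card_fin, nsmul_eq_mul]
        push_cast
        rfl

/-- The factors of the polynomials. -/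
noncomputable def fac (w : ℂ) : Polynomial ℂ :=
  Polynomial.X + (1 - Polynomial.X) * Polynomial.C w

lemma fac_one : fac 1 = 1 := by
  unfold fac
  simp

lemma fac_natDegree (w : ℂ) : (fac w).natDegree ≤ 1 := by
  unfold fac
  compute_degree

lemma fac_eval (w : ℂ) (q : ℂ) : (fac w).eval q = q + (1 - q) * w := by
  unfold fac
  simp

lemma fac_derivative (w : ℂ) : (fac w).derivative = Polynomial.C (1 - w) := by
  unfold fac
  simp
  ring

/-- The polynomial of a set of characters. -/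
noncomputable def pl (c : (Fin m → ZMod p) → ℂ) (S : Finset (Fin m → ZMod p)) : Polynomial ℂ :=
  ∑ a ∈ S, Polynomial.C (c a) * ∏ j, fac (psi p (-a j))

lemma pl_natDegree (c : (Fin m → ZMod p) → ℂ) (S : Finset (Fin m → ZMod p)) (L : ℕ)
    (hS : ∀ a ∈ S, (univ.filter fun j => a j ≠ 0).card ≤ L) : (pl c S).natDegree ≤ L := by
  classical
  unfold pl
  refine Polynomial.natDegree_sum_le_of_forall_le _ _ fun a ha => ?_
  refine (Polynomial.natDegree_C_mul_le _ _).trans ?_
  have h1 : ∏ j, fac (psi p (-a j)) = ∏ j ∈ univ.filter fun j => a j ≠ 0, fac (psi p (-a j)) := by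
    symm
    refine prod_subset (subset_univ _) fun j _ hj => ?_
    have : a j = 0 := by
      by_contra h
      exact hj (mem_filter.2 ⟨mem_univ _, h⟩)
    rw [this, neg_zero, AddChar.map_zero_eq_one, fac_one]
  rw [h1]
  refine (Polynomial.natDegree_prod_le _ _).trans ?_
  refine (sum_le_sum fun j _ => fac_natDegree _).trans ?_
  rw [sum_const, smul_eq_mul, mul_one]
  exact hS a ha

lemma pl_eval_norm (c : (Fin m → ZMod p) → ℂ) (S : Finset (Fin m → ZMod p)) (ε : ℝ)
    (hc : ∀ a ∈ S, ‖c a‖ ≤ ε) (hε : 0 ≤ ε) (q : ℝ) (h0 : 0 ≤ q) (h1 : q ≤ 1) :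
    ‖(pl c S).eval (q : ℂ)‖ ≤ (p : ℝ) ^ m * ε := by
  classical
  unfold pl
  rw [Polynomial.eval_finsetSum]
  refine (norm_sum_le _ _).trans ?_
  have h2 : ∀ a ∈ S, ‖(Polynomial.C (c a) * ∏ j, fac (psi p (-a j))).eval (q : ℂ)‖ ≤ ε := by
    intro a ha
    rw [Polynomial.eval_mul, Polynomial.eval_C, Polynomial.eval_prod, norm_mul, norm_prod]
    have h3 : ∏ j, ‖(fac (psi p (-a j))).eval (q : ℂ)‖ ≤ 1 := by
      refine Finset.prod_le_one (fun _ _ => norm_nonneg _) fun j _ => ?_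
      rw [fac_eval]
      refine (norm_add_le _ _).trans ?_
      rw [norm_mul, norm_psi, mul_one]
      have h4 : (1 - (q : ℂ)) = ((1 - q : ℝ) : ℂ) := by push_cast; rfl
      rw [h4, Complex.norm_real, Complex.norm_real, Real.norm_of_nonneg h0,
        Real.norm_of_nonneg (by linarith)]
      linarith
    calc ‖c a‖ * ∏ j, ‖(fac (psi p (-a j))).eval (q : ℂ)‖ ≤ ε * 1 :=
          mul_le_mul (hc a ha) h3 (prod_nonneg fun _ _ => norm_nonneg _) hε
      _ = ε := mul_one _
  refine (sum_le_sum h2).trans ?_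
  rw [sum_const, nsmul_eq_mul]
  refine mul_le_mul_of_nonneg_right ?_ hε
  have := card_le_univ S
  rw [Fintype.card_fun, ZMod.card, Fintype.card_fin] at this
  exact_mod_cast this

lemma pl_deriv (c : (Fin m → ZMod p) → ℂ) (S : Finset (Fin m → ZMod p)) :
    (pl c S).derivative.eval 0 = ∑ a ∈ S, c a * ∑ i, ((∏ j ∈ univ.erase i, psi p (-a j)) *
      (1 - psi p (-a i))) := by
  classical
  unfold pl
  rw [Polynomial.derivative_sum, Polynomial.eval_finsetSum]
  refine sum_congr rfl fun a _ => ?_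
  rw [Polynomial.derivative_C_mul, Polynomial.eval_mul, Polynomial.eval_C,
    Polynomial.derivative_prod_finset, Polynomial.eval_finsetSum]
  congr 1
  refine sum_congr rfl fun i _ => ?_
  rw [Polynomial.eval_mul, fac_derivative, Polynomial.eval_C, Polynomial.eval_prod]
  congr 1
  refine prod_congr rfl fun j _ => ?_
  rw [fac_eval]
  ring

lemma pl_deriv_norm (c : (Fin m → ZMod p) → ℂ) (S : Finset (Fin m → ZMod p)) (ε : ℝ)
    (hc : ∀ a ∈ S, ‖c a‖ ≤ ε) (hε : 0 ≤ ε) :
    ‖(pl c S).derivative.eval 0‖ ≤ (p : ℝ) ^ m * ε * (2 * m) := by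
  classical
  rw [pl_deriv]
  refine (norm_sum_le _ _).trans ?_
  have h2 : ∀ a ∈ S, ‖c a * ∑ i, ((∏ j ∈ univ.erase i, psi p (-a j)) *
      (1 - psi p (-a i)))‖ ≤ ε * (2 * m) := by
    intro a ha
    rw [norm_mul]
    refine mul_le_mul (hc a ha) ?_ (norm_nonneg _) hε
    refine (norm_sum_le _ _).trans ?_
    have h3 : ∀ i ∈ (univ : Finset (Fin m)), ‖(∏ j ∈ univ.erase i, psi p (-a j)) *
        (1 - psi p (-a i))‖ ≤ 2 := by
      intro i _
      rw [norm_mul, norm_prod]
      simp only [norm_psi, prod_const_one, one_mul]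
      refine (norm_sub_le _ _).trans ?_
      rw [norm_psi, norm_one]
      norm_num
    refine (sum_le_sum h3).trans ?_
    rw [sum_const, card_univ, Fintype.card_fin, nsmul_eq_mul]
    linarith
  refine (sum_le_sum h2).trans ?_
  rw [sum_const, nsmul_eq_mul, mul_assoc]
  refine mul_le_mul_of_nonneg_right ?_ (by positivity)
  have := card_le_univ S
  rw [Fintype.card_fun, ZMod.card, Fintype.card_fin] at this
  exact_mod_cast this

/-- The value with zeros in `Y` and ones elsewhere. -/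
def zz (Y : Finset (Fin m)) : Fin m → ZMod p := fun j => if j ∈ Y then 0 else 1

lemma zz_sum (Y : Finset (Fin m)) (a : Fin m → ZMod p) :
    psi p (-∑ j, a j * zz Y j) = ∏ j ∈ Yᶜ, psi p (-a j) := by
  classical
  rw [← psi_sum, ← sum_neg_distrib]
  congr 1
  rw [← sum_compl_add_sum Y]
  have h1 : ∑ j ∈ Y, -(a j * zz Y j) = 0 := by
    refine sum_eq_zero fun j hj => ?_
    unfold zz
    rw [if_pos hj]
    ring
  rw [h1, add_zero]
  refine sum_congr rfl fun j hj => ?_
  unfold zz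
  rw [if_neg (mem_compl.1 hj)]
  ring

lemma pl_eval_univ (g : X → Fin m → ZMod p) (u : X → ℝ) (q : ℂ) :
    (pl (uh g u) univ).eval q = ∑ Y : Finset (Fin m), q ^ Y.card * (1 - q) ^ Yᶜ.card *
      (ww g u (zz Y) : ℂ) := by
  classical
  unfold pl
  rw [Polynomial.eval_finsetSum]
  have h1 : ∀ a : Fin m → ZMod p, (Polynomial.C (uh g u a) * ∏ j, fac (psi p (-a j))).eval q =
      ∑ Y : Finset (Fin m), q ^ Y.card * (1 - q) ^ Yᶜ.card *
        (uh g u a * psi p (-∑ j, a j * zz Y j)) := by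
    intro a
    rw [Polynomial.eval_mul, Polynomial.eval_C, Polynomial.eval_prod]
    simp only [fac_eval]
    rw [Finset.prod_add, mul_sum, Finset.powerset_univ]
    refine sum_congr rfl fun Y _ => ?_
    rw [zz_sum, prod_const, prod_mul_distrib, prod_const, ← Finset.compl_eq_univ_sdiff]
    ring
  simp only [h1]
  rw [sum_comm]
  refine sum_congr rfl fun Y _ => ?_
  rw [← mul_sum, inversion]

lemma ww_nonneg (g : X → Fin m → ZMod p) (u : X → ℝ) (hu : ∀ x, 0 ≤ u x)
    (z : Fin m → ZMod p) : 0 ≤ ww g u z := by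
  unfold ww
  refine mul_nonneg (by positivity) (expect_nonneg fun x _ => ?_)
  split_ifs
  · exact hu x
  · exact le_refl _

lemma ww_le (g : X → Fin m → ZMod p) (u : X → ℝ) (z : Fin m → ZMod p) (α : ℝ)
    (hu : ∀ x, g x = z → u x ≤ α) : ww g u z ≤ α * ww g (fun _ => 1) z := by
  unfold ww
  have h0 : α * ((p : ℝ) ^ m * 𝔼 x, if g x = z then (1 : ℝ) else 0) =
      (p : ℝ) ^ m * 𝔼 x, α * (if g x = z then (1 : ℝ) else 0) := by
    rw [← mul_expect]
    ring
  rw [h0]
  refine mul_le_mul_of_nonneg_left (expect_le_expect fun x _ => ?_) (by positivity)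
  split_ifs with h
  · rw [mul_one]; exact hu x h
  · simp

lemma le_ww (g : X → Fin m → ZMod p) (u : X → ℝ) (z : Fin m → ZMod p) (α : ℝ)
    (hu : ∀ x, g x = z → α ≤ u x) : α * ww g (fun _ => 1) z ≤ ww g u z := by
  unfold ww
  have h0 : α * ((p : ℝ) ^ m * 𝔼 x, if g x = z then (1 : ℝ) else 0) =
      (p : ℝ) ^ m * 𝔼 x, α * (if g x = z then (1 : ℝ) else 0) := by
    rw [← mul_expect]
    ring
  rw [h0]
  refine mul_le_mul_of_nonneg_left (expect_le_expect fun x _ => ?_) (by positivity)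
  split_ifs with h
  · rw [mul_one]; exact hu x h
  · simp

lemma exists_of_ww (g : X → Fin m → ZMod p) (z : Fin m → ZMod p)
    (h : 0 < ww g (fun _ => 1) z) : ∃ x, g x = z := by
  by_contra hc
  push Not at hc
  have : ww g (fun _ => 1) z = 0 := by
    unfold ww
    have h1 : ∀ x, (if g x = z then (1 : ℝ) else 0) = 0 := fun x => if_neg (hc x)
    simp only [h1]
    simp
  rw [this] at h
  exact lt_irrefl _ h

/-- A bounded function that is almost uncorrelated with all characters of large support does not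
notice a single zero. -/
theorem deg_contra [Nonempty X] (L : ℕ) (C : ℝ)
    (hC : ∀ b : Polynomial ℂ, b.natDegree ≤ L →
      (∀ q : ℝ, 0 ≤ q → q ≤ 1 → ‖b.eval (q : ℂ)‖ ≤ 1) → ‖b.derivative.eval 0‖ ≤ C)
    (g : X → Fin m → ZMod p) (u : X → ℝ) (hu0 : ∀ x, 0 ≤ u x) (hu1 : ∀ x, u x ≤ 1)
    (ε δ α : ℝ) (hε0 : 0 ≤ ε) (hδ : 0 < δ) (hδ1 : δ ≤ 1)
    (H1 : ∀ a : Fin m → ZMod p, a ≠ 0 → ‖𝔼 x, psi p (∑ j, a j * g x j)‖ ≤ ε)
    (H2 : ∀ a : Fin m → ZMod p, L < (univ.filter fun j => a j ≠ 0).card →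
      ‖𝔼 x, psi p (∑ j, a j * g x j) * (u x : ℂ)‖ ≤ ε)
    (hε : (p : ℝ) ^ m * ε ≤ δ / 8) (hm : 6 * C < m * δ) (hm0 : 0 < m)
    (hyes : ∀ x, (∃! j, g x j = 0) → α ≤ u x)
    (hno : ∀ x, (∀ j, g x j ≠ 0) → u x ≤ α - δ) : False := by
  classical
  set η : ℝ := (p : ℝ) ^ m * ε with hη
  have hη0 : 0 ≤ η := by positivity
  have hμ : ∀ z, |ww g (fun _ => 1) z - 1| ≤ η := fun z => ww_one g hε0 H1 z
  have hμ1 : ∀ z, ww g (fun _ => 1) z ≤ 1 + η := fun z => by
    have := (abs_le.1 (hμ z)).2; linarith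
  have hμ2 : ∀ z, 1 - η ≤ ww g (fun _ => 1) z := fun z => by
    have := (abs_le.1 (hμ z)).1; linarith
  have hz1 : ∀ (i : Fin m) (x : X), g x = zz {i} → ∃! j, g x j = 0 := by
    intro i x hx
    refine ⟨i, ?_, fun j hj => ?_⟩
    · simp only [hx, zz, mem_singleton, if_true]
    · simp only [hx, zz, mem_singleton] at hj
      by_contra h
      rw [if_neg h] at hj
      exact one_ne_zero hj
  have hz0 : ∀ x : X, g x = zz ∅ → ∀ j, g x j ≠ 0 := by
    intro x hx j
    simp only [hx, zz, notMem_empty, if_false]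
    exact one_ne_zero
  obtain ⟨x0, hx0⟩ := exists_of_ww g (zz ∅) (lt_of_lt_of_le (by linarith) (hμ2 _))
  obtain ⟨x1, hx1⟩ := exists_of_ww g (zz {⟨0, hm0⟩}) (lt_of_lt_of_le (by linarith) (hμ2 _))
  have hα0 : 0 ≤ α - δ := (hu0 x0).trans (hno x0 (hz0 x0 hx0))
  have hα1 : α ≤ 1 := (hyes x1 (hz1 _ x1 hx1)).trans (hu1 x1)
  -- low and high parts
  set Sl : Finset (Fin m → ZMod p) :=
    univ.filter fun a => (univ.filter fun j => a j ≠ 0).card ≤ L with hSl
  set Sh : Finset (Fin m → ZMod p) :=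
    univ.filter fun a => ¬ (univ.filter fun j => a j ≠ 0).card ≤ L with hSh
  have hsplit : pl (uh g u) univ = pl (uh g u) Sl + pl (uh g u) Sh := by
    unfold pl
    rw [hSl, hSh]
    exact (sum_filter_add_sum_filter_not _ _ _).symm
  have hcSh : ∀ a ∈ Sh, ‖uh g u a‖ ≤ ε := by
    intro a ha
    have := (mem_filter.1 ha).2
    push Not at this
    exact H2 a this
  have hfull : ∀ q : ℝ, 0 ≤ q → q ≤ 1 → ‖(pl (uh g u) univ).eval (q : ℂ)‖ ≤ 1 + η := by
    intro q h0 h1
    rw [pl_eval_univ]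
    refine (norm_sum_le _ _).trans ?_
    have h2 : ∀ Y ∈ (univ : Finset (Finset (Fin m))), ‖(q : ℂ) ^ Y.card *
        (1 - (q : ℂ)) ^ Yᶜ.card * (ww g u (zz Y) : ℂ)‖ ≤
        (q ^ Y.card * (1 - q) ^ Yᶜ.card) * (1 + η) := by
      intro Y _
      have h3 : (q : ℂ) ^ Y.card * (1 - (q : ℂ)) ^ Yᶜ.card * (ww g u (zz Y) : ℂ) =
          ((q ^ Y.card * (1 - q) ^ Yᶜ.card * ww g u (zz Y) : ℝ) : ℂ) := by push_cast; rfl
      have h5 : 0 ≤ q ^ Y.card * (1 - q) ^ Yᶜ.card :=
        mul_nonneg (pow_nonneg h0 _) (pow_nonneg (by linarith) _)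
      rw [h3, Complex.norm_real, Real.norm_of_nonneg (mul_nonneg h5 (ww_nonneg g u hu0 _))]
      refine mul_le_mul_of_nonneg_left ?_ h5
      have h4 := ww_le g u (zz Y) 1 (fun x _ => hu1 x)
      rw [one_mul] at h4
      exact h4.trans (hμ1 _)
    refine (sum_le_sum h2).trans ?_
    rw [← sum_mul]
    have h6 : ∑ Y : Finset (Fin m), q ^ Y.card * (1 - q) ^ Yᶜ.card = 1 := by
      have h7 := Finset.prod_add (fun _ : Fin m => q) (fun _ => 1 - q) univ
      simp only [prod_const, card_univ, Fintype.card_fin, add_sub_cancel, one_pow,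
        Finset.powerset_univ] at h7
      refine Eq.trans ?_ h7.symm
      refine sum_congr rfl fun Y _ => ?_
      rw [← Finset.compl_eq_univ_sdiff]
    rw [h6, one_mul]
  have hlow : ∀ q : ℝ, 0 ≤ q → q ≤ 1 →
      ‖(Polynomial.C (1 / 3 : ℂ) * pl (uh g u) Sl).eval (q : ℂ)‖ ≤ 1 := by
    intro q h0 h1
    have h2 := hfull q h0 h1
    have h3 := pl_eval_norm (uh g u) Sh ε hcSh hε0 q h0 h1
    have h4 : (pl (uh g u) Sl).eval (q : ℂ) = (pl (uh g u) univ).eval (q : ℂ) -
        (pl (uh g u) Sh).eval (q : ℂ) := by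
      rw [hsplit, Polynomial.eval_add]
      ring
    rw [Polynomial.eval_mul, Polynomial.eval_C, norm_mul, h4]
    have h5 := norm_sub_le ((pl (uh g u) univ).eval (q : ℂ)) ((pl (uh g u) Sh).eval (q : ℂ))
    have h6 : ‖(1 / 3 : ℂ)‖ = 1 / 3 := by norm_num
    rw [h6]
    rw [← hη] at h3
    linarith
  have hdeg : (Polynomial.C (1 / 3 : ℂ) * pl (uh g u) Sl).natDegree ≤ L :=
    (Polynomial.natDegree_C_mul_le _ _).trans
      (pl_natDegree _ _ L fun a ha => (mem_filter.1 ha).2)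
  have hd1 := hC _ hdeg hlow
  have hd2 : ‖(pl (uh g u) Sl).derivative.eval 0‖ ≤ 3 * C := by
    rw [Polynomial.derivative_C_mul, Polynomial.eval_mul, Polynomial.eval_C, norm_mul] at hd1
    have h6 : ‖(1 / 3 : ℂ)‖ = 1 / 3 := by norm_num
    rw [h6] at hd1
    linarith
  have hd3 := pl_deriv_norm (uh g u) Sh ε hcSh hε0
  rw [← hη] at hd3
  have hd4 : (pl (uh g u) univ).derivative.eval 0 =
      ((∑ i : Fin m, (ww g u (zz {i}) - ww g u (zz ∅)) : ℝ) : ℂ) := by
    rw [pl_deriv]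
    simp only [mul_sum]
    rw [sum_comm]
    push_cast
    refine sum_congr rfl fun i _ => ?_
    rw [← inversion, ← inversion, ← sum_sub_distrib]
    refine sum_congr rfl fun a _ => ?_
    rw [zz_sum, zz_sum, compl_empty]
    have h7 : ({i}ᶜ : Finset (Fin m)) = univ.erase i := by
      ext j; simp
    rw [h7, ← Finset.mul_prod_erase univ (fun j => psi p (-a j)) (mem_univ i)]
    ring
  have hd5 : (m : ℝ) * (δ - 2 * η) ≤ ∑ i : Fin m, (ww g u (zz {i}) - ww g u (zz ∅)) := by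
    have h8 : ∀ i ∈ (univ : Finset (Fin m)), δ - 2 * η ≤ ww g u (zz {i}) - ww g u (zz ∅) := by
      intro i _
      have h9 := le_ww g u (zz {i}) α fun x hx => hyes x (hz1 i x hx)
      have h10 := ww_le g u (zz ∅) (α - δ) fun x hx => hno x (hz0 x hx)
      have h11 : α * (1 - η) ≤ α * ww g (fun _ => 1) (zz {i}) :=
        mul_le_mul_of_nonneg_left (hμ2 _) (by linarith)
      have h12 : (α - δ) * ww g (fun _ => 1) (zz ∅) ≤ (α - δ) * (1 + η) :=
        mul_le_mul_of_nonneg_left (hμ1 _) hα0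
      nlinarith
    have h13 := sum_le_sum h8
    rw [sum_const, card_univ, Fintype.card_fin, nsmul_eq_mul] at h13
    exact h13
  have hd6 : ‖(pl (uh g u) univ).derivative.eval 0‖ ≤ 3 * C + η * (2 * m) := by
    rw [hsplit, Polynomial.derivative_add, Polynomial.eval_add]
    exact (norm_add_le _ _).trans (add_le_add hd2 hd3)
  rw [hd4, Complex.norm_real, Real.norm_eq_abs] at hd6
  have hd7 := (le_abs_self _).trans hd6
  have hm1 : (0 : ℝ) < m := by exact_mod_cast hm0
  nlinarith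

end Pool.Agent.W902.Q
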