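import Pool.Agent.W977.CQ.Nof
import Pool.Agent.W902.Q.Stm

/-!
# The norm of a local form with random coefficients
-/

set_option autoImplicit false
set_option linter.unusedSectionVars false

open Finset
open scoped BigOperators ComplexConjugate

namespace Pool.Agent.W902.Q

open Pool.Agent.W977.CQ

/-- Averages over a group are averages over its image. -/
lemma expect_hom {X Y : Type} [AddCommGroup X] [AddCommGroup Y] [Fintype X] [Fintype Y]
    [DecidableEq Y] (f : X →+ Y) (hf : Function.Surjective f) {E : Type} [AddCommGroup E]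
    [Module ℚ≥0 E] (F : Y → E) : 𝔼 x, F (f x) = 𝔼 y, F y := by
  have hc : ∀ z : Y, (univ.filter fun h : X => f h = z).card =
      (univ.filter fun h : X => f h = 0).card := fun z =>
    AddMonoidHom.card_fiber_eq_of_mem_range _ (hf z) (hf 0)
  set c := (univ.filter fun h : X => f h = 0).card with hcdef
  have h1 : ∑ h : X, F (f h) = c • ∑ z, F z := by
    rw [← Finset.sum_fiberwise_of_maps_to (g := f) (t := univ) (fun _ _ => mem_univ _),
      smul_sum]
    refine sum_congr rfl fun z _ => ?_
    rw [← hc z, ← sum_const]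
    refine sum_congr rfl fun h hh => ?_
    rw [(mem_filter.1 hh).2]
  have h2 : Fintype.card X = c * Fintype.card Y := by
    rw [← card_univ, Finset.card_eq_sum_card_fiberwise (f := f) (t := univ)
      (fun _ _ => mem_coe.2 (mem_univ _)), sum_congr rfl fun z _ => hc z, sum_const, card_univ,
      smul_eq_mul, mul_comm]
  have h3 : (c : ℚ≥0) ≠ 0 := by
    have : 0 < c := card_pos.2 ⟨0, by simp⟩
    exact_mod_cast this.ne'
  rw [expect_univ, expect_univ, h1, h2, ← Nat.cast_smul_eq_nsmul ℚ≥0 c, smul_smul]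
  congr 1
  push_cast
  field_simp

variable {n G p : ℕ} [Fact p.Prime]

lemma ell_add (π : Fin n → Fin G) (g : Fin G) (x y : Inp n p) :
    ell π g (x + y) = ell π g x + ell π g y := by
  unfold ell
  rw [← sum_add_distrib]
  rfl

/-- The sums of the groups in a set, for vectors supported in `Z`. -/
def ellR (π : Fin n → Fin G) (H : Finset (Fin G)) (Z : Finset (Fin n)) :
    Inp n p →+ (H → ZMod p) where
  toFun h g := ell π g (restr Z h)
  map_zero' := by funext g; simp [ell]
  map_add' x y := by funext j; simp only [map_add, ell_add, Pi.add_apply]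

lemma ellR_surj (π : Fin n → Fin G) (H : Finset (Fin G)) (Z : Finset (Fin n))
    (hZ : ∀ g ∈ H, ∃ v ∈ Z, π v = g) : Function.Surjective (ellR (p := p) π H Z) := by
  classical
  intro z
  choose φ hφ1 hφ2 using hZ
  refine ⟨fun v => if h : π v ∈ H then (if φ (π v) h = v then z ⟨π v, h⟩ else 0) else 0, ?_⟩
  funext g
  show ell π g (restr Z _) = z g
  unfold ell
  rw [sum_eq_single_of_mem (φ g g.2)]
  · rw [restr_apply, if_pos (hφ1 g g.2)]
    have h1 : π (φ g g.2) = g := hφ2 g g.2
    simp only [h1, g.2, dite_true, if_true]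
  · rw [mem_filter]
    exact ⟨mem_univ _, hφ2 g g.2⟩
  · intro v hv hvg
    rw [mem_filter] at hv
    rw [restr_apply]
    split_ifs with h1 h2 h3
    · exact absurd (by simp only [hv.2] at h3; exact h3.symm) hvg
    all_goals rfl

/-- The second moment over random coefficients. -/
lemma second_moment {Ω : Type} [Fintype Ω] (A : Ω → Fin G → ZMod p) (B : Ω → ZMod p) :
    𝔼 c : Fin G → ZMod p, ‖𝔼 ω, psi p (∑ g, c g * A ω g + B ω)‖ ^ 2 ≤
      𝔼 ω' : Ω, 𝔼 ω : Ω, (if A ω = A ω' then (1 : ℝ) else 0) := by
  classical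
  have h1 : ∀ c : Fin G → ZMod p, ((‖𝔼 ω, psi p (∑ g, c g * A ω g + B ω)‖ ^ 2 : ℝ) : ℂ) =
      𝔼 ω' : Ω, 𝔼 ω : Ω, psi p (B ω - B ω') * psi p (∑ g, c g * (A ω g - A ω' g)) := by
    intro c
    rw [← Complex.normSq_eq_norm_sq, ← Complex.mul_conj, map_expect (starRingEnd ℂ), mul_expect]
    refine expect_congr rfl fun ω' _ => ?_
    rw [expect_mul]
    refine expect_congr rfl fun ω _ => ?_
    rw [psi_mul_conj, ← AddChar.map_add_eq_mul]
    congr 1
    have : ∑ g, c g * (A ω g - A ω' g) = ∑ g, c g * A ω g - ∑ g, c g * A ω' g := by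
      rw [← sum_sub_distrib]
      exact sum_congr rfl fun g _ => by ring
    rw [this]
    ring
  have h2 : ∀ δ : Fin G → ZMod p, 𝔼 c : Fin G → ZMod p, psi p (∑ g, c g * δ g) =
      if δ = 0 then 1 else 0 := by
    intro δ
    have h3 : ∀ c : Fin G → ZMod p, psi p (∑ g, c g * δ g) = ∏ g, psi p (c g * δ g) :=
      fun c => psi_sum _ _
    simp only [h3]
    rw [expect_prod (fun g a => psi p (a * δ g))]
    split_ifs with h
    · rw [h]
      simp
    · obtain ⟨g, hg⟩ := Function.ne_iff.1 h
      apply Finset.prod_eq_zero (mem_univ g)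
      have h6 : (psi p).mulShift (δ g) ≠ 0 := by
        intro h7
        exact (ZMod.isPrimitive_stdAddChar p) (a := δ g) hg h7
      have h7 := AddChar.expect_eq_zero_iff_ne_zero.2 h6
      simp only [AddChar.mulShift_apply] at h7
      simpa only [mul_comm] using h7
  have h4 : ((𝔼 c : Fin G → ZMod p, ‖𝔼 ω, psi p (∑ g, c g * A ω g + B ω)‖ ^ 2 : ℝ) : ℂ) =
      𝔼 ω' : Ω, 𝔼 ω : Ω, psi p (B ω - B ω') * (if A ω = A ω' then (1 : ℂ) else 0) := by
    have h5 : ((𝔼 c : Fin G → ZMod p, ‖𝔼 ω, psi p (∑ g, c g * A ω g + B ω)‖ ^ 2 : ℝ) : ℂ) =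
        𝔼 c : Fin G → ZMod p, ((‖𝔼 ω, psi p (∑ g, c g * A ω g + B ω)‖ ^ 2 : ℝ) : ℂ) := by
      rw [Fintype.expect_eq_sum_div_card, Fintype.expect_eq_sum_div_card]
      push_cast
      rfl
    rw [h5]
    simp only [h1]
    rw [expect_comm]
    refine expect_congr rfl fun ω' _ => ?_
    rw [expect_comm]
    refine expect_congr rfl fun ω _ => ?_
    rw [← mul_expect, h2 (fun g => A ω g - A ω' g)]
    congr 1
    have : ((fun g => A ω g - A ω' g) = 0) ↔ A ω = A ω' := by
      rw [← sub_eq_zero (a := A ω)]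
      rfl
    simp only [this]
  have h6 : 𝔼 c : Fin G → ZMod p, ‖𝔼 ω, psi p (∑ g, c g * A ω g + B ω)‖ ^ 2 =
      ‖((𝔼 c : Fin G → ZMod p, ‖𝔼 ω, psi p (∑ g, c g * A ω g + B ω)‖ ^ 2 : ℝ) : ℂ)‖ := by
    rw [Complex.norm_real, Real.norm_of_nonneg]
    exact expect_nonneg fun _ _ => by positivity
  rw [h6, h4]
  refine (RCLike.norm_expect_le (K := ℂ)).trans (expect_le_expect fun ω' _ => ?_)
  refine (RCLike.norm_expect_le (K := ℂ)).trans (expect_le_expect fun ω _ => ?_)
  rw [norm_mul, norm_psi, one_mul]
  split_ifs <;> simp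

/-- The bound for one coordinate. -/
noncomputable def bt (p m : ℕ) (v : ZMod p) : ℝ :=
  if v = 0 then 1 else Real.sqrt (1 / p) + (m : ℝ) / p

lemma bt_nonneg (m : ℕ) (v : ZMod p) : 0 ≤ bt p m v := by
  unfold bt; split_ifs <;> positivity

lemma expect_bt (m : ℕ) (v : ZMod p) : 𝔼 z : ZMod p, bt p m (v * z) ≤ bt p (m + 1) v := by
  by_cases hv : v = 0
  · subst hv
    simp [bt]
  · have hp0 : (0 : ℝ) < p := by exact_mod_cast (Fact.out : p.Prime).pos
    have h1 : ∀ z : ZMod p, bt p m (v * z) ≤ (if z = 0 then 1 else 0) +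
        (Real.sqrt (1 / p) + (m : ℝ) / p) := by
      intro z
      unfold bt
      by_cases hz : z = 0
      · subst hz; simp; positivity
      · simp [hv, hz]
    refine (expect_le_expect fun z _ => h1 z).trans ?_
    rw [expect_add_distrib, Fintype.expect_const, Fintype.expect_eq_sum_div_card, sum_ite_eq' univ,
      if_pos (mem_univ _), ZMod.card]
    unfold bt
    rw [if_neg hv]
    push_cast
    rw [add_div]
    linarith

/-- Products over a finite set of coordinates. -/
lemma expect_prod' {ι : Type} [Fintype ι] [DecidableEq ι] {α : Type} [Fintype α]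
    (f : ι → α → ℝ) : 𝔼 z : ι → α, ∏ j, f j (z j) = ∏ j, 𝔼 a, f j a := by
  classical
  simp only [Fintype.expect_eq_sum_div_card]
  rw [Finset.prod_div_distrib, Finset.prod_univ_sum, Fintype.piFinset_univ, prod_const]
  simp

/-- The averaged norm. -/
lemma nn_avg (π : Fin n → Fin G) (H : Finset (Fin G)) {Z₁ : Finset (Fin n)}
    (hZ₁ : ∀ g ∈ H, ∃ v ∈ Z₁, π v = g) (Zs : List (Finset (Fin n))) :
    (∀ Z ∈ Zs, ∀ g ∈ H, ∃ v ∈ Z, π v = g) → Zs.length + 1 < p →
    ∀ (C : ZMod p) (v : Fin G → ZMod p) (P : Fin G → Polynomial (ZMod p)) (R : Inp n p → ZMod p),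
    C ≠ 0 → (∀ g, (P g).natDegree ≤ Zs.length + 1) →
    (∀ g, (P g).coeff (Zs.length + 1) = C * v g) →
    𝔼 c : Fin G → ZMod p, Nn Zs Z₁ (fun x => ∑ g, c g * (P g).eval (ell π g x) + R x) ≤
      ∏ g ∈ H, bt p Zs.length (v g) := by
  classical
  have hp0 : (0 : ℝ) < p := by exact_mod_cast (Fact.out : p.Prime).pos
  induction Zs with
  | nil =>
    intro _ _ C v P R hC hP hPc
    simp only [List.length_nil, zero_add, Nn] at hP hPc ⊢
    set A : Inp n p × Inp n p → Fin G → ZMod p := fun ω g =>
      -(C * v g) * ell π g (restr Z₁ ω.1) with hA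
    set B : Inp n p × Inp n p → ZMod p := fun ω => R ω.2 - R (ω.2 + restr Z₁ ω.1) with hB
    have h1 : ∀ c : Fin G → ZMod p, 𝔼 h : Inp n p, 𝔼 x : Inp n p,
        psi p ((∑ g, c g * (P g).eval (ell π g x) + R x) -
          (∑ g, c g * (P g).eval (ell π g (x + restr Z₁ h)) + R (x + restr Z₁ h))) =
        𝔼 ω : Inp n p × Inp n p, psi p (∑ g, c g * A ω g + B ω) := by
      intro c
      rw [← Finset.univ_product_univ, Finset.expect_product]
      refine expect_congr rfl fun h _ => expect_congr rfl fun x _ => ?_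
      congr 1
      have h2 : ∀ g, (P g).eval (ell π g x) - (P g).eval (ell π g (x + restr Z₁ h)) =
          -(C * v g) * ell π g (restr Z₁ h) := by
        intro g
        have h3 := taylor_sub_natDegree (d := 0) (ell π g (restr Z₁ h)) (by simpa using hP g)
        have h4 := taylor_sub_coeff (d := 0) (ell π g (restr Z₁ h)) (by simpa using hP g)
        have h5 : (P g).eval (ell π g x) - (P g).eval (ell π g (x + restr Z₁ h)) =
            (P g - Polynomial.taylor (ell π g (restr Z₁ h)) (P g)).eval (ell π g x) := by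
          rw [Polynomial.eval_sub, Polynomial.taylor_eval, ell_add]
        rw [h5, Polynomial.eq_C_of_natDegree_le_zero h3, Polynomial.eval_C, h4]
        simp only [zero_add, Nat.cast_one, hPc]
        ring
      have h6 : (∑ g, c g * (P g).eval (ell π g x) + R x) -
          (∑ g, c g * (P g).eval (ell π g (x + restr Z₁ h)) + R (x + restr Z₁ h)) =
          ∑ g, c g * ((P g).eval (ell π g x) - (P g).eval (ell π g (x + restr Z₁ h))) +
            (R x - R (x + restr Z₁ h)) := by
        simp only [mul_sub, sum_sub_distrib]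
        ring
      rw [h6]
      simp only [h2, hA, hB]
    simp only [h1]
    have hb2 : ∀ g, bt p 0 (v g) ^ 2 = if v g = 0 then 1 else 1 / (p : ℝ) := by
      intro g
      unfold bt
      split_ifs
      · norm_num
      · rw [Nat.cast_zero, zero_div, add_zero, Real.sq_sqrt (by positivity)]
    have h7 : 𝔼 ω' : Inp n p × Inp n p, 𝔼 ω : Inp n p × Inp n p,
        (if A ω = A ω' then (1 : ℝ) else 0) ≤ (∏ g ∈ H, bt p 0 (v g)) ^ 2 := by
      have h8 : ∀ ω' : Inp n p × Inp n p, 𝔼 ω : Inp n p × Inp n p,
          (if A ω = A ω' then (1 : ℝ) else 0) ≤ (∏ g ∈ H, bt p 0 (v g)) ^ 2 := by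
        intro ω'
        rw [← Finset.univ_product_univ, Finset.expect_product]
        have h9 : ∀ h x : Inp n p, (if A (h, x) = A ω' then (1 : ℝ) else 0) ≤
            ∏ g : H, (if -(C * v g) * ellR π H Z₁ h g = A ω' g then (1 : ℝ) else 0) := by
          intro h x
          split_ifs with h10
          · rw [Finset.prod_eq_one]
            intro g _
            rw [if_pos]
            rw [← h10]
            rfl
          · exact prod_nonneg fun _ _ => by split_ifs <;> norm_num
        refine (expect_le_expect fun h _ => expect_le_expect fun x _ => h9 h x).trans ?_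
        simp only [Fintype.expect_const]
        rw [expect_hom (ellR π H Z₁) (ellR_surj π H Z₁ hZ₁) (fun z : H → ZMod p =>
          ∏ g : H, (if -(C * v g) * z g = A ω' g then (1 : ℝ) else 0)),
          expect_prod' (fun (g : H) a => if -(C * v g) * a = A ω' g then (1 : ℝ) else 0)]
        rw [← Finset.prod_pow, ← Finset.prod_coe_sort H]
        refine prod_le_prod (fun g _ => expect_nonneg fun _ _ => by split_ifs <;> norm_num)
          fun g _ => ?_
        rw [hb2]
        split_ifs with hv
        · refine (expect_le_expect (g := fun _ => (1 : ℝ)) fun a _ => by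
            split_ifs <;> norm_num).trans ?_
          rw [Fintype.expect_const]
        · have hv' : -(C * v g) ≠ 0 := neg_ne_zero.2 (mul_ne_zero hC hv)
          have h11 : ∀ a : ZMod p, (if -(C * v g) * a = A ω' g then (1 : ℝ) else 0) =
              if a = (-(C * v g))⁻¹ * A ω' g then (1 : ℝ) else 0 := by
            intro a
            congr 1
            rw [eq_iff_iff]
            constructor
            · intro h; rw [← h, inv_mul_cancel_left₀ hv']
            · intro h; rw [h, mul_inv_cancel_left₀ hv']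
          simp only [h11]
          rw [Fintype.expect_eq_sum_div_card, sum_ite_eq' univ, if_pos (mem_univ _), ZMod.card]
      refine (expect_le_expect fun ω' _ => h8 ω').trans ?_
      rw [Fintype.expect_const]
    have h12 := expect_pow_le (X := Fin G → ZMod p)
      (fun c => ‖𝔼 ω : Inp n p × Inp n p, psi p (∑ g, c g * A ω g + B ω)‖)
      (fun _ => norm_nonneg _) 2
    have h13 := h12.trans ((second_moment A B).trans h7)
    have h14 : 0 ≤ ∏ g ∈ H, bt p 0 (v g) := prod_nonneg fun _ _ => bt_nonneg _ _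
    exact (pow_le_pow_iff_left₀ (expect_nonneg fun _ _ => norm_nonneg _) h14 two_ne_zero).1 h13
  | cons Z Zs ih =>
    intro hcard hlen C v P R hC hP hPc
    simp only [List.length_cons, Nn] at hlen hP hPc ⊢
    have hZ := hcard Z (List.mem_cons_self ..)
    have hd : ((Zs.length + 1 + 1 : ℕ) : ZMod p) ≠ 0 := by
      rw [Ne, ZMod.natCast_eq_zero_iff]
      exact Nat.not_dvd_of_pos_of_lt (by omega) hlen
    rw [expect_comm]
    have h1 : ∀ h : Inp n p, 𝔼 c : Fin G → ZMod p,
        Nn Zs Z₁ (fun x => (∑ g, c g * (P g).eval (ell π g x) + R x) -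
          (∑ g, c g * (P g).eval (ell π g (x + restr Z h)) + R (x + restr Z h))) ≤
        ∏ g ∈ H, bt p Zs.length (v g * ell π g (restr Z h)) := by
      intro h
      have h2 : ∀ c : Fin G → ZMod p, (fun x => (∑ g, c g * (P g).eval (ell π g x) + R x) -
          (∑ g, c g * (P g).eval (ell π g (x + restr Z h)) + R (x + restr Z h))) =
          fun x => ∑ g, c g * (P g - Polynomial.taylor (ell π g (restr Z h)) (P g)).eval
            (ell π g x) + (R x - R (x + restr Z h)) := by
        intro c
        funext x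
        simp only [Polynomial.eval_sub, Polynomial.taylor_eval, ell_add, mul_sub,
          sum_sub_distrib]
        ring
      simp only [h2]
      refine ih (fun Z' hZ' => hcard Z' (List.mem_cons_of_mem _ hZ')) (by omega)
        (-((Zs.length + 1 + 1 : ℕ) : ZMod p) * C) (fun g => v g * ell π g (restr Z h)) _ _
        (mul_ne_zero (neg_ne_zero.2 hd) hC) (fun g => taylor_sub_natDegree _ (hP g)) fun g => ?_
      rw [taylor_sub_coeff _ (hP g), hPc g]
      ring
    refine (expect_le_expect fun h _ => h1 h).trans ?_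
    have h3 : ∀ h : Inp n p, ∏ g ∈ H, bt p Zs.length (v g * ell π g (restr Z h)) =
        ∏ g : H, bt p Zs.length (v g * ellR π H Z h g) := by
      intro h
      rw [← Finset.prod_coe_sort H]
      rfl
    simp only [h3]
    rw [expect_hom (ellR π H Z) (ellR_surj π H Z hZ) (fun z : H → ZMod p =>
      ∏ g : H, bt p Zs.length (v g * z g)),
      expect_prod' (fun (g : H) a => bt p Zs.length (v g * a)), ← Finset.prod_coe_sort H]
    exact prod_le_prod (fun g _ => expect_nonneg fun _ _ => bt_nonneg _ _)
      fun g _ => expect_bt _ _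

end Pool.Agent.W902.Q
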