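import Pool.Agent.W902.Q.Cor

/-!
# Acceptance probabilities lie between zero and one
-/

set_option autoImplicit false
set_option linter.unusedSectionVars false

open Finset Matrix
open scoped BigOperators ComplexConjugate ComplexOrder

namespace Pool.Agent.W902.Q

open Pool.Agent.W977.CQ

variable {n p : ℕ} [Fact p.Prime] {D T : ℕ}

lemma state_psd (Q : Machine n (ZMod p) D T) (x : Inp n p) (t : ℕ) : (Q.state x t).PosSemidef := by
  induction t with
  | zero =>
    simp only [Machine.state]
    rw [← Matrix.diagonal_single, Matrix.posSemidef_diagonal_iff]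
    intro i
    by_cases h : i = Q.init
    · subst h; simp
    · simp [h]
  | succ t ih =>
    simp only [Machine.state]
    split_ifs with h
    · exact Matrix.posSemidef_sum _ fun ν _ => ih.mul_mul_conjTranspose_same _
    · exact ih

lemma state_re_nonneg (Q : Machine n (ZMod p) D T) (x : Inp n p) (t : ℕ) (c : Fin D) :
    0 ≤ (Q.state x t c c).re := by
  have := (state_psd Q x t).diag_nonneg (i := c)
  rw [Complex.le_def] at this
  exact this.1

lemma prob_nonneg (Q : Machine n (ZMod p) D T) (S : Finset (Fin D)) (x : Inp n p) :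
    0 ≤ Q.prob S x :=
  sum_nonneg fun c _ => state_re_nonneg Q x T c

lemma prob_le_one (Q : Machine n (ZMod p) D T) (hQ : Q.Valid) (S : Finset (Fin D))
    (x : Inp n p) : Q.prob S x ≤ 1 := by
  unfold Machine.prob
  calc ∑ a ∈ S, (Q.state x T a a).re ≤ ∑ a, (Q.state x T a a).re :=
        sum_le_sum_of_subset_of_nonneg (subset_univ _) fun c _ _ => state_re_nonneg Q x T c
    _ = (∑ a, Q.state x T a a).re := by rw [Complex.re_sum]
    _ = 1 := by rw [blk_trace Q hQ x T]; simp

end Pool.Agent.W902.Q
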