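import Pool.Agent.W902.Q.Deg
import Pool.Agent.W902.Q.Psd
import Pool.Agent.W366.Q.Prog
import Pool.Agent.W32.Q.Hit
import Pool.Agent.W462.QDERIV

/-!
# One stage: fixed constants
-/

set_option autoImplicit false
set_option linter.unusedSectionVars false

open Finset
open scoped BigOperators ComplexConjugate

namespace Pool.Agent.W902.Q

open Pool.Agent.W977.CQ

/-- The base of the bound is small for large `p`. -/
lemma base_small (k E p : ℕ) (h1 : 4 ^ (E + 1) ≤ p) (h2 : k * 2 ^ (E + 1) ≤ p) :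
    Real.sqrt (1 / p) + (k : ℝ) / p ≤ (1 / 2) ^ E := by
  have hp : (0 : ℝ) < p := by
    have : 0 < p := lt_of_lt_of_le (by positivity) h1
    exact_mod_cast this
  have h3 : Real.sqrt (1 / p) ≤ (1 / 2) ^ (E + 1) := by
    rw [Real.sqrt_le_left (by positivity), ← pow_mul, div_le_iff₀ hp]
    have h4 : ((4 : ℝ) ^ (E + 1)) ≤ p := by exact_mod_cast h1
    have h5 : ((1 : ℝ) / 2) ^ ((E + 1) * 2) * 4 ^ (E + 1) = 1 := by
      rw [mul_comm (E + 1) 2, pow_mul, ← mul_pow]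
      norm_num
    calc (1 : ℝ) = (1 / 2) ^ ((E + 1) * 2) * 4 ^ (E + 1) := h5.symm
      _ ≤ _ := mul_le_mul_of_nonneg_left h4 (by positivity)
  have h4 : (k : ℝ) / p ≤ (1 / 2) ^ (E + 1) := by
    rw [div_le_iff₀ hp]
    have h5 : (k : ℝ) * 2 ^ (E + 1) ≤ p := by exact_mod_cast h2
    have h6 : ((1 : ℝ) / 2) ^ (E + 1) * (k * 2 ^ (E + 1)) = k := by
      rw [mul_comm (k : ℝ), ← mul_assoc, ← mul_pow]
      norm_num
    calc (k : ℝ) = (1 / 2) ^ (E + 1) * (k * 2 ^ (E + 1)) := h6.symm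
      _ ≤ _ := mul_le_mul_of_nonneg_left h5 (by positivity)
  calc Real.sqrt (1 / p) + (k : ℝ) / p ≤ (1 / 2) ^ (E + 1) + (1 / 2) ^ (E + 1) :=
        add_le_add h3 h4
    _ = (1 / 2) ^ E := by rw [pow_succ]; ring

/-- The lower bound with all parameters. -/
theorem lower {n G p m k' L M E k s : ℕ} [Fact p.Prime] {C δ : ℝ} (hδ0 : 0 < δ) (hδ1 : δ ≤ 1)
    (hC : ∀ b : Polynomial ℂ, b.natDegree ≤ L →
      (∀ q : ℝ, 0 ≤ q → q ≤ 1 → ‖b.eval (q : ℂ)‖ ≤ 1) → ‖b.derivative.eval 0‖ ≤ C)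
    (hk' : k' = 5 * k + 4) (hM : M = s + (2 * s + 2) * (k' + 1) + 1)
    (hE : E = 32 * (k' + 1) * (M * 2 ^ (k' + 1) + (k' + 1) + 1))
    (hG : G = n / (8 * (k' + 1))) (hn1 : 16 * (k' + 1) ≤ n)
    (hn2 : 8 * (p : ℝ) ^ m ≤ δ * 2 ^ n)
    (hp1 : 4 ^ (E + 1) ≤ p)
    (hm : 6 * C < m * δ) (hm0 : 0 < m)
    (π : Fin m → Fin n → Fin G)
    (hπ1 : ∀ Z : Fin (k' + 1) → Finset (Fin n), (∀ a, n / 2 ≤ (Z a).card) →
      Nat.card {j // ¬ Good (π j) Z} ≤ L)
    (hπ2 : ∀ j, Good (π j) (fun _ : Fin (k' + 1) => (univ : Finset (Fin n)))) :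
    ∃ c : Fin m → Fin G → ZMod p, ∀ (D T : ℕ) (Q : Machine n (ZMod p) D T), Q.Valid →
      T ≤ k * n → D ≤ 2 ^ (s * n) → ∀ α : ℝ,
      ¬ ((∀ x, (∃! j, frm (k' + 1) (π j) (c j) x = 0) → α ≤ Q.prob Q.yes x) ∧
        ∀ x, (∀ j, frm (k' + 1) (π j) (c j) x ≠ 0) → Q.prob Q.yes x ≤ α - δ) := by
  classical
  have hkE : k' + 1 ≤ E := by
    rw [hE]
    calc k' + 1 = 1 * (k' + 1) * 1 := by ring
      _ ≤ 32 * (k' + 1) * (M * 2 ^ (k' + 1) + (k' + 1) + 1) :=
        Nat.mul_le_mul (Nat.mul_le_mul_right _ (by norm_num)) (by omega)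
  have hp2 : k' * 2 ^ (E + 1) ≤ p := by
    refine le_trans ?_ hp1
    have h1 : E + 1 < 2 ^ (E + 1) := Nat.lt_pow_self (by norm_num)
    have h2 : (4 : ℕ) ^ (E + 1) = 2 ^ (E + 1) * 2 ^ (E + 1) := by
      rw [← mul_pow]; norm_num
    rw [h2]
    exact Nat.mul_le_mul_right _ (by omega)
  have hb := base_small k' E p hp1 hp2
  have hpk : k' + 1 < p := by
    have h1 : E + 1 < 4 ^ (E + 1) := Nat.lt_pow_self (by norm_num)
    omega
  have hp0 : (0 : ℝ) < p := by exact_mod_cast (Fact.out : p.Prime).pos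
  have hb1 : Real.sqrt (1 / p) + (k' : ℝ) / p ≤ 1 :=
    hb.trans (pow_le_one₀ (by norm_num) (by norm_num))
  obtain ⟨c, hc⟩ := exists_coef hpk hb1 π
  refine ⟨c, fun D T Q hQ hT hD α => ?_⟩
  rintro ⟨hyes, hno⟩
  set lam : ℝ := 2 ^ (n * (k' + 1)) * (p : ℝ) ^ m *
    (Real.sqrt (1 / p) + (k' : ℝ) / p) ^ (G / 2) with hlam
  set B : ℝ := (1 / 2) ^ (M * n) with hB
  have hB0 : 0 ≤ B := by positivity
  have hpm : (p : ℝ) ^ m ≤ 2 ^ n := by
    have h1 : δ * 2 ^ n ≤ 2 ^ n := mul_le_of_le_one_left (by positivity) hδ1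
    have h2 : (0 : ℝ) < (p : ℝ) ^ m := by positivity
    linarith
  have hlamB : lam ≤ B ^ 2 ^ (k' + 1) := by
    have h1 : (Real.sqrt (1 / p) + (k' : ℝ) / p) ^ (G / 2) ≤ (1 / 2) ^ (E * (G / 2)) := by
      rw [pow_mul]
      exact pow_le_pow_left₀ (by positivity) hb _
    have h2 : (M * 2 ^ (k' + 1) + (k' + 1) + 1) * n ≤ E * (G / 2) := by
      have h3 : G / 2 = n / (16 * (k' + 1)) := by
        rw [hG, Nat.div_div_eq_div_mul]
        congr 1
        ring
      have h4 : n ≤ 32 * (k' + 1) * (G / 2) := by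
        rw [h3]
        have h5 : 1 ≤ n / (16 * (k' + 1)) := by
          rw [Nat.le_div_iff_mul_le (by positivity)]
          omega
        have h6 := Nat.lt_div_mul_add (a := n) (b := 16 * (k' + 1)) (by positivity)
        nlinarith
      rw [hE]
      calc (M * 2 ^ (k' + 1) + (k' + 1) + 1) * n
          ≤ (M * 2 ^ (k' + 1) + (k' + 1) + 1) * (32 * (k' + 1) * (G / 2)) :=
            Nat.mul_le_mul_left _ h4
        _ = _ := by ring
    have h7 : ((1 : ℝ) / 2) ^ (E * (G / 2)) ≤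
        (1 / 2) ^ ((M * 2 ^ (k' + 1) + (k' + 1) + 1) * n) :=
      pow_le_pow_of_le_one (by norm_num) (by norm_num) h2
    have h8 : ((1 : ℝ) / 2) ^ ((M * 2 ^ (k' + 1) + (k' + 1) + 1) * n) =
        (1 / 2) ^ (M * n * 2 ^ (k' + 1)) * (1 / 2) ^ (n * (k' + 1)) * (1 / 2) ^ n := by
      rw [← pow_add, ← pow_add]
      congr 1
      ring
    have h9 : (2 : ℝ) ^ (n * (k' + 1)) * (1 / 2) ^ (n * (k' + 1)) = 1 := by
      rw [← mul_pow]; norm_num
    have h10 : (2 : ℝ) ^ n * (1 / 2) ^ n = 1 := by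
      rw [← mul_pow]; norm_num
    rw [hlam, hB, ← pow_mul]
    calc 2 ^ (n * (k' + 1)) * (p : ℝ) ^ m * (Real.sqrt (1 / p) + (k' : ℝ) / p) ^ (G / 2)
        ≤ 2 ^ (n * (k' + 1)) * 2 ^ n *
          ((1 / 2) ^ (M * n * 2 ^ (k' + 1)) * (1 / 2) ^ (n * (k' + 1)) * (1 / 2) ^ n) := by
          refine mul_le_mul (mul_le_mul_of_nonneg_left hpm (by positivity))
            ((h1.trans h7).trans h8.le) (by positivity) (by positivity)
      _ = (2 ^ (n * (k' + 1)) * (1 / 2) ^ (n * (k' + 1))) * (2 ^ n * (1 / 2) ^ n) *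
          (1 / 2) ^ (M * n * 2 ^ (k' + 1)) := by ring
      _ = _ := by rw [h9, h10]; ring
  have hBn : B ≤ (1 / 2) ^ n := by
    rw [hB]
    refine pow_le_pow_of_le_one (by norm_num) (by norm_num) ?_
    exact Nat.le_mul_of_pos_left _ (by omega)
  -- the characters
  have H1 : ∀ a : Fin m → ZMod p, a ≠ 0 →
      ‖𝔼 x : Inp n p, psi p (∑ j, a j * frm (k' + 1) (π j) (c j) x)‖ ≤ (1 / 2) ^ n := by
    intro a ha
    obtain ⟨j, hj⟩ := Function.ne_iff.1 ha
    have h1 := nof_of_NN (s₀ := n) (tot (k' + 1) π a c) hB0 hlamB (by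
      intro Z hZ
      refine hc Z a ⟨j, hj, ?_⟩
      have h2 : Z = fun _ => univ := by
        funext i
        rw [← Finset.card_eq_iff_eq_univ, Fintype.card_fin]
        exact hZ i
      rw [h2]
      exact hπ2 j) (List.replicate (k' + 1) (fun _ => 1, univ)) (by simp) (by
      intro q hq
      rw [List.mem_replicate] at hq
      rw [hq.2]
      exact ⟨⟨fun x => by simp, fun x h => rfl⟩, by simp⟩)
    simp only [List.map_replicate, List.prod_replicate, one_pow, mul_one] at h1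
    exact h1.trans hBn
  have H2 : ∀ a : Fin m → ZMod p, L < (univ.filter fun j => a j ≠ 0).card →
      ‖𝔼 x : Inp n p, psi p (∑ j, a j * frm (k' + 1) (π j) (c j) x) *
        ((Q.prob Q.yes x : ℝ) : ℂ)‖ ≤ (1 / 2) ^ n := by
    intro a ha
    have h1 := corr_machine Q hQ (fun x => psi p (tot (k' + 1) π a c x)) (r := k' + 1)
      (d := n / 4) (s₀ := n / 2) (B := B) (by omega) (by
        refine hT.trans ?_
        have h2 := Nat.lt_div_mul_add (a := n) (b := 4) (by norm_num)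
        rw [hk']
        nlinarith) (by
        intro l hl hq
        refine nof_of_NN (s₀ := n / 2) (tot (k' + 1) π a c) hB0 hlamB ?_ l hl hq
        intro Z hZ
        refine hc Z a ?_
        by_contra hcon
        push Not at hcon
        have h3 := hπ1 Z fun i => (hZ i).ge
        rw [Nat.card_eq_fintype_card, Fintype.card_subtype] at h3
        have h4 : (univ.filter fun j => a j ≠ 0) ⊆ univ.filter fun j => ¬ Good (π j) Z :=
          fun j hj => mem_filter.2 ⟨mem_univ _, hcon j (mem_filter.1 hj).2⟩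
        have h5 := card_le_card h4
        omega) Q.yes
    refine h1.trans ?_
    have hD' : (D : ℝ) ≤ 2 ^ (s * n) := by exact_mod_cast hD
    have h3n : (3 : ℝ) ^ n ≤ 2 ^ (2 * n) := by
      rw [pow_mul]
      exact pow_le_pow_left₀ (by norm_num) (by norm_num) _
    calc (D : ℝ) * (((D : ℝ) ^ 2 * 3 ^ n) ^ (k' + 1) * B)
        ≤ 2 ^ (s * n) * (((2 ^ (s * n)) ^ 2 * 2 ^ (2 * n)) ^ (k' + 1) * (1 / 2) ^ (M * n)) := by
          refine mul_le_mul hD' (mul_le_mul_of_nonneg_right ?_ hB0) (by positivity)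
            (by positivity)
          refine pow_le_pow_left₀ (by positivity) ?_ _
          exact mul_le_mul (pow_le_pow_left₀ (by positivity) hD' 2) h3n (by positivity)
            (by positivity)
      _ = 2 ^ ((s + (2 * s + 2) * (k' + 1)) * n) * (1 / 2) ^ (M * n) := by
          rw [← mul_assoc]
          congr 1
          rw [← pow_mul, ← pow_add, ← pow_mul, ← pow_add]
          congr 1
          ring
      _ = 2 ^ ((s + (2 * s + 2) * (k' + 1)) * n) *
          (1 / 2) ^ ((s + (2 * s + 2) * (k' + 1)) * n) * (1 / 2) ^ n := by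
          rw [mul_assoc, ← pow_add]
          congr 2
          rw [hM]
          ring
      _ = (1 / 2) ^ n := by
          rw [← mul_pow]
          norm_num
  have hε : (p : ℝ) ^ m * (1 / 2) ^ n ≤ δ / 8 := by
    have h2 : (2 : ℝ) ^ n * (1 / 2) ^ n = 1 := by
      rw [← mul_pow]; norm_num
    rw [le_div_iff₀ (by norm_num)]
    calc (p : ℝ) ^ m * (1 / 2) ^ n * 8 = (8 * (p : ℝ) ^ m) * (1 / 2) ^ n := by
          ring
      _ ≤ δ * 2 ^ n * (1 / 2) ^ n := mul_le_mul_of_nonneg_right hn2 (by positivity)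
      _ = δ := by rw [mul_assoc, h2, mul_one]
  exact deg_contra L C hC (fun (x : Inp n p) j => frm (k' + 1) (π j) (c j) x)
    (fun x => Q.prob Q.yes x) (fun x => prob_nonneg Q Q.yes x)
    (fun x => prob_le_one Q hQ Q.yes x) ((1 / 2) ^ n) δ α (by positivity)
    hδ0 hδ1 H1 H2 hε hm hm0 hyes hno

end Pool.Agent.W902.Q
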